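import Mathlib

/-!
# The Turk's head links: a parabolic representation of the group, and its trace field
-/

set_option autoImplicit false

namespace Pool.Agent.Y472.L.Rep

open Matrix

/-- A letter of a braid word on three strands acts on triples of elements of a group: the
Wirtinger relation at a crossing. -/
def letter {G : Type} [Group G] (g : ℕ × Bool) (x : Fin 3 → G) : Fin 3 → G :=
  if g.1 = 0 then (if g.2 then ![x 0 * x 1 * (x 0)⁻¹, x 0, x 2]
    else ![x 1, (x 1)⁻¹ * x 0 * x 1, x 2])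
  else (if g.2 then ![x 0, x 1 * x 2 * (x 1)⁻¹, x 1] else ![x 0, x 2, (x 2)⁻¹ * x 1 * x 2])

/-- The action of a braid word. -/
def hurwitz {G : Type} [Group G] (w : List (ℕ × Bool)) (x : Fin 3 → G) : Fin 3 → G :=
  w.foldl (fun y g => letter g y) x

/-- The relations of the group of the closure of a braid on three strands. -/
def rels (w : List (ℕ × Bool)) : Set (FreeGroup (Fin 3)) :=
  {r | ∃ i, r = hurwitz w (FreeGroup.of : Fin 3 → FreeGroup (Fin 3)) i * (FreeGroup.of i)⁻¹}

/-- The group of the closure of a braid on three strands. -/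
abbrev LinkGroup (w : List (ℕ × Bool)) : Type := PresentedGroup (rels w)

/-- The trace field of a representation. -/
noncomputable def traceField {G : Type} [Group G] (ρ : G →* SpecialLinearGroup (Fin 2) ℂ) :
    IntermediateField ℚ ℂ :=
  IntermediateField.adjoin ℚ (Set.range fun g => Matrix.trace (ρ g : Matrix (Fin 2) (Fin 2) ℂ))

lemma letter_map {G H : Type} [Group G] [Group H] (f : G →* H) (g : ℕ × Bool) (x : Fin 3 → G) :
    letter g (fun i => f (x i)) = fun i => f (letter g x i) := by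
  unfold letter
  split_ifs <;> · funext i; fin_cases i <;> simp

lemma hurwitz_map {G H : Type} [Group G] [Group H] (f : G →* H) (w : List (ℕ × Bool)) :
    ∀ x : Fin 3 → G, hurwitz w (fun i => f (x i)) = fun i => f (hurwitz w x i) := by
  induction w with
  | nil => intro x; rfl
  | cons g w ih =>
    intro x
    show hurwitz w (letter g fun i => f (x i)) = fun i => f (hurwitz w (letter g x) i)
    rw [letter_map, ih]

lemma hurwitz_append {G : Type} [Group G] (w w' : List (ℕ × Bool)) (x : Fin 3 → G) :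
    hurwitz (w ++ w') x = hurwitz w' (hurwitz w x) := List.foldl_append

/-- the braid `(s_1 s_2⁻¹)^n` -/
def turk (n : ℕ) : List (ℕ × Bool) := (List.replicate n [(0, true), (1, false)]).flatten

lemma turk_succ (n : ℕ) : turk (n + 1) = [(0, true), (1, false)] ++ turk n := by
  rw [turk, List.replicate_succ, List.flatten_cons]
  rfl

lemma hurwitz_turk {G : Type} [Group G] (B : G) (X : Fin 3 → G)
    (h : hurwitz [(0, true), (1, false)] X = fun i => B * X i * B⁻¹) (n : ℕ) :
    hurwitz (turk n) X = fun i => B ^ n * X i * (B ^ n)⁻¹ := by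
  induction n with
  | zero => funext i; simp [turk, hurwitz]
  | succ n ih =>
    rw [turk_succ, hurwitz_append, h]
    have h1 := hurwitz_map (MulAut.conj B).toMonoidHom (turk n) X
    simp only [MulEquiv.toMonoidHom_eq_coe, MonoidHom.coe_coe, MulAut.conj_apply] at h1
    rw [h1, ih]
    funext i
    rw [pow_succ']
    group

section mat

/-- two by two matrices -/
abbrev M2 : Type := Matrix (Fin 2) (Fin 2) ℂ

/-- the first meridian -/
noncomputable def X0 (z : ℂ) : SpecialLinearGroup (Fin 2) ℂ :=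
  ⟨!![1, 1 - z⁻¹; 0, 1], by simp [Matrix.det_fin_two]⟩

/-- the second meridian -/
noncomputable def X1 (z : ℂ) : SpecialLinearGroup (Fin 2) ℂ :=
  ⟨!![1, 0; z⁻¹ - 1, 1], by simp [Matrix.det_fin_two]⟩

/-- the third meridian -/
noncomputable def X2 (z : ℂ) : SpecialLinearGroup (Fin 2) ℂ :=
  ⟨!![1 - z * (z - 1), z * (z - 1); -(z * (z - 1)), 1 + z * (z - 1)], by
    simp only [Matrix.det_fin_two_of]; ring⟩

/-- the meridians -/
noncomputable def XX (z : ℂ) : Fin 3 → SpecialLinearGroup (Fin 2) ℂ := ![X0 z, X1 z, X2 z]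

/-- the rotation -/
noncomputable def BB (z : ℂ) (hz : z ≠ 0) : SpecialLinearGroup (Fin 2) ℂ :=
  ⟨!![1 - z⁻¹, -z; 1, -z], by
    simp only [Matrix.det_fin_two_of]
    field_simp
    ring⟩

variable {z : ℂ}

lemma sl_ext {A B : SpecialLinearGroup (Fin 2) ℂ} (h : (A : M2) = (B : M2)) : A = B :=
  Subtype.ext h

lemma m_ext {a b c d a' b' c' d' : ℂ} (h1 : a = a') (h2 : b = b') (h3 : c = c') (h4 : d = d') :
    (!![a, b; c, d] : M2) = !![a', b'; c', d'] := by rw [h1, h2, h3, h4]

lemma cmul (A B : SpecialLinearGroup (Fin 2) ℂ) :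
    ((A * B : SpecialLinearGroup (Fin 2) ℂ) : M2) = (A : M2) * (B : M2) := rfl

lemma cinv (A : SpecialLinearGroup (Fin 2) ℂ) :
    ((A⁻¹ : SpecialLinearGroup (Fin 2) ℂ) : M2) = adjugate (A : M2) := rfl

lemma cpow (A : SpecialLinearGroup (Fin 2) ℂ) (n : ℕ) :
    ((A ^ n : SpecialLinearGroup (Fin 2) ℂ) : M2) = (A : M2) ^ n := rfl

lemma c0 : (X0 z : M2) = !![1, 1 - z⁻¹; 0, 1] := rfl

lemma c1 : (X1 z : M2) = !![1, 0; z⁻¹ - 1, 1] := rfl

lemma c2 : (X2 z : M2) =
    !![1 - z * (z - 1), z * (z - 1); -(z * (z - 1)), 1 + z * (z - 1)] := rfl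

lemma cB (hz : z ≠ 0) : (BB z hz : M2) = !![1 - z⁻¹, -z; 1, -z] := rfl

lemma hurwitz_XX (hz : z ≠ 0) :
    hurwitz [(0, true), (1, false)] (XX z) = fun i => BB z hz * XX z i * (BB z hz)⁻¹ := by
  funext i
  fin_cases i
  · show X0 z * X1 z * (X0 z)⁻¹ = BB z hz * X0 z * (BB z hz)⁻¹
    rw [eq_mul_inv_iff_mul_eq]
    apply sl_ext
    rw [cmul, cmul, cmul, cmul, cinv, c0, c1, cB, Matrix.adjugate_fin_two_of, Matrix.mul_fin_two,
      Matrix.mul_fin_two, Matrix.mul_fin_two, Matrix.mul_fin_two]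
    refine m_ext ?_ ?_ ?_ ?_ <;> field_simp <;> ring
  · show X2 z = BB z hz * X1 z * (BB z hz)⁻¹
    rw [eq_mul_inv_iff_mul_eq]
    apply sl_ext
    rw [cmul, cmul, c2, c1, cB, Matrix.mul_fin_two, Matrix.mul_fin_two]
    refine m_ext ?_ ?_ ?_ ?_ <;> field_simp <;> ring
  · show (X2 z)⁻¹ * X0 z * X2 z = BB z hz * X2 z * (BB z hz)⁻¹
    rw [eq_mul_inv_iff_mul_eq, mul_assoc, mul_assoc, inv_mul_eq_iff_eq_mul, ← mul_assoc]
    apply sl_ext
    rw [cmul, cmul, cmul, cmul, c2, c0, cB, Matrix.mul_fin_two, Matrix.mul_fin_two,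
      Matrix.mul_fin_two, Matrix.mul_fin_two]
    refine m_ext ?_ ?_ ?_ ?_ <;> field_simp <;> ring

/-- the powers of a matrix of determinant `1` and trace `2 cos θ` -/
lemma pow_trace (B : M2) (hd : B.det = 1) (θ : ℝ)
    (ht : B.trace = 2 * Real.cos θ) (k : ℕ) :
    (Real.sin θ : ℂ) • B ^ (k + 1) =
      (Real.sin ((k + 1) * θ) : ℂ) • B - (Real.sin (k * θ) : ℂ) • (1 : M2) := by
  have hB : B * B = (2 * Real.cos θ : ℂ) • B - (1 : M2) := by
    rw [Matrix.det_fin_two] at hd
    rw [← ht, Matrix.trace_fin_two]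
    ext i j
    fin_cases i <;> fin_cases j <;>
      simp only [Fin.zero_eta, Fin.mk_one, Matrix.mul_apply, Fin.sum_univ_two, Matrix.sub_apply,
        Matrix.smul_apply, smul_eq_mul, Matrix.one_apply, Fin.isValue, if_true, zero_ne_one,
        one_ne_zero, if_false]
    · linear_combination -hd
    · ring
    · ring
    · linear_combination -hd
  induction k with
  | zero => simp
  | succ k ih =>
    rw [pow_succ, ← Matrix.smul_mul, ih, Matrix.sub_mul, Matrix.smul_mul, Matrix.smul_mul, hB,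
      Matrix.one_mul]
    have e1 : Real.sin ((((k + 1 : ℕ) : ℝ) + 1) * θ) =
        2 * Real.cos θ * Real.sin (((k : ℝ) + 1) * θ) - Real.sin (k * θ) := by
      have h1 : (((k + 1 : ℕ) : ℝ) + 1) * θ = (k + 1) * θ + θ := by push_cast; ring
      have h2 : (k : ℝ) * θ = (k + 1) * θ - θ := by ring
      rw [h1, h2, Real.sin_add, Real.sin_sub]
      ring
    have e2 : Real.sin (((k + 1 : ℕ) : ℝ) * θ) = Real.sin (((k : ℝ) + 1) * θ) := by push_cast; rfl
    rw [e1, e2]
    ext i j
    simp only [Matrix.sub_apply, Matrix.smul_apply, smul_eq_mul]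
    push_cast
    ring

lemma pow_neg_one (B : SpecialLinearGroup (Fin 2) ℂ) (n : ℕ) (hn : 2 ≤ n)
    (ht : Matrix.trace (B : M2) = 2 * Real.cos (Real.pi / n)) :
    ((B ^ n : SpecialLinearGroup (Fin 2) ℂ) : M2) = -1 := by
  obtain ⟨m, rfl⟩ : ∃ m, n = m + 1 := ⟨n - 1, by omega⟩
  have hn0 : ((m + 1 : ℕ) : ℝ) ≠ 0 := by positivity
  have h := pow_trace (B : M2) B.2 (Real.pi / ((m + 1 : ℕ) : ℝ)) ht m
  have h1 : ((m : ℝ) + 1) * (Real.pi / ((m + 1 : ℕ) : ℝ)) = Real.pi := by
    push_cast at hn0 ⊢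
    field_simp
  have h2 : (m : ℝ) * (Real.pi / ((m + 1 : ℕ) : ℝ)) = Real.pi - Real.pi / ((m + 1 : ℕ) : ℝ) := by
    push_cast at hn0 ⊢
    field_simp
    ring
  rw [h1, h2, Real.sin_pi, Real.sin_pi_sub, Complex.ofReal_zero, zero_smul, zero_sub,
    ← smul_neg] at h
  have h3 : (Real.sin (Real.pi / ((m + 1 : ℕ) : ℝ)) : ℂ) ≠ 0 := by
    have h4 : 0 < Real.sin (Real.pi / ((m + 1 : ℕ) : ℝ)) := by
      have h6 : (2 : ℝ) ≤ ((m + 1 : ℕ) : ℝ) := by exact_mod_cast hn
      refine Real.sin_pos_of_pos_of_lt_pi (by positivity) ?_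
      rw [div_lt_iff₀ (by positivity)]
      nlinarith [Real.pi_pos]
    exact_mod_cast h4.ne'
  rw [cpow]
  exact smul_right_injective _ h3 h

/-- the triple of the meridians is fixed by the braid -/
theorem fixed (n : ℕ) (hn : 2 ≤ n) (hz : z ≠ 0)
    (h : z + z⁻¹ = 1 - 2 * (Real.cos (Real.pi / n) : ℂ)) :
    hurwitz (turk n) (XX z) = XX z := by
  rw [hurwitz_turk (BB z hz) (XX z) (hurwitz_XX hz)]
  have ht : Matrix.trace (BB z hz : M2) = 2 * (Real.cos (Real.pi / n) : ℂ) := by
    rw [Matrix.trace_fin_two]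
    show (1 - z⁻¹) + -z = _
    linear_combination -h
  have h1 := pow_neg_one (BB z hz) n hn ht
  funext i
  have h2 : BB z hz ^ n * XX z i = XX z i * BB z hz ^ n := by
    apply sl_ext
    rw [cmul, cmul, h1]
    simp
  rw [h2, mul_inv_cancel_right]

/-- the representation of the group -/
noncomputable def rep {w : List (ℕ × Bool)} {G : Type} [Group G] {X : Fin 3 → G}
    (h : hurwitz w X = X) : LinkGroup w →* G :=
  PresentedGroup.toGroup (f := X) (by
    rintro _ ⟨i, rfl⟩
    rw [map_mul, map_inv, FreeGroup.lift_apply_of]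
    have h1 := hurwitz_map (FreeGroup.lift X) w (FreeGroup.of : Fin 3 → FreeGroup (Fin 3))
    have h2 : (fun i => FreeGroup.lift X (FreeGroup.of i)) = X := by
      funext i
      exact FreeGroup.lift_apply_of
    rw [h2, h] at h1
    have h3 := congrFun h1 i
    rw [← h3, mul_inv_cancel])

lemma rep_of {w : List (ℕ × Bool)} {G : Type} [Group G] {X : Fin 3 → G}
    (h : hurwitz w X = X) (i : Fin 3) : rep h (PresentedGroup.of i) = X i :=
  PresentedGroup.toGroup.of _

/-- the matrices with entries in a field -/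
def HH (F : IntermediateField ℚ ℂ) : Subgroup (SpecialLinearGroup (Fin 2) ℂ) where
  carrier := {A | ∀ i j, (A : M2) i j ∈ F}
  mul_mem' := by
    intro A B hA hB i j
    rw [cmul, Matrix.mul_apply, Fin.sum_univ_two]
    exact F.add_mem (F.mul_mem (hA _ _) (hB _ _)) (F.mul_mem (hA _ _) (hB _ _))
  one_mem' := by
    intro i j
    show (1 : M2) i j ∈ F
    rw [Matrix.one_apply]
    split_ifs
    exacts [F.one_mem, F.zero_mem]
  inv_mem' := by
    intro A hA i j
    rw [cinv, Matrix.adjugate_fin_two]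
    fin_cases i <;> fin_cases j
    · exact hA 1 1
    · exact F.neg_mem (hA 0 1)
    · exact F.neg_mem (hA 1 0)
    · exact hA 0 0

/-- the trace field of the representation -/
theorem trace_field {w : List (ℕ × Bool)} (hz : z ≠ 0) (hz1 : z ≠ 1)
    (h : hurwitz w (XX z) = XX z) : traceField (rep h) = IntermediateField.adjoin ℚ {z} := by
  set F := IntermediateField.adjoin ℚ {z} with hF
  have hzF : z ∈ F := IntermediateField.mem_adjoin_simple_self ℚ z
  have hX : ∀ i, XX z i ∈ HH F := by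
    have h1 : z * (z - 1) ∈ F := F.mul_mem hzF (F.sub_mem hzF F.one_mem)
    have h2 : z⁻¹ ∈ F := F.inv_mem hzF
    intro i
    fin_cases i
    · intro a b
      fin_cases a <;> fin_cases b
      exacts [F.one_mem, F.sub_mem F.one_mem h2, F.zero_mem, F.one_mem]
    · intro a b
      fin_cases a <;> fin_cases b
      exacts [F.one_mem, F.zero_mem, F.sub_mem h2 F.one_mem, F.one_mem]
    · intro a b
      fin_cases a <;> fin_cases b
      exacts [F.sub_mem F.one_mem h1, h1, F.neg_mem h1, F.add_mem F.one_mem h1]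
  have hrange : ∀ g, rep h g ∈ HH F := by
    intro g
    induction g using PresentedGroup.induction_on with
    | _ x =>
      have h1 : (FreeGroup.lift (XX z)).range ≤ HH F := by
        rw [FreeGroup.range_lift_eq_closure, Subgroup.closure_le]
        rintro _ ⟨i, rfl⟩
        exact hX i
      exact h1 ⟨x, rfl⟩
  apply le_antisymm
  · refine IntermediateField.adjoin_le_iff.2 ?_
    rintro _ ⟨g, rfl⟩
    show Matrix.trace _ ∈ F
    rw [Matrix.trace_fin_two]
    exact F.add_mem (hrange g 0 0) (hrange g 1 1)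
  · rw [hF, IntermediateField.adjoin_simple_le_iff]
    have hmem : ∀ g, Matrix.trace (rep h g : M2) ∈ traceField (rep h) :=
      fun g => IntermediateField.subset_adjoin ℚ _ ⟨g, rfl⟩
    have h01 := hmem (PresentedGroup.of 0 * PresentedGroup.of 1)
    have h12 := hmem (PresentedGroup.of 1 * PresentedGroup.of 2)
    rw [map_mul, rep_of, rep_of, cmul] at h01 h12
    have m2 : (2 : ℂ) ∈ traceField (rep h) := by
      simpa using (traceField (rep h)).natCast_mem 2
    have e01 : (1 - z⁻¹) ^ 2 ∈ traceField (rep h) := by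
      have : (1 - z⁻¹) ^ 2 = 2 - Matrix.trace ((XX z 0 : M2) * (XX z 1 : M2)) := by
        show _ = 2 - Matrix.trace ((X0 z : M2) * (X1 z : M2))
        rw [c0, c1, Matrix.mul_fin_two, Matrix.trace_fin_two_of]
        ring
      rw [this]
      exact sub_mem m2 h01
    have e12 : (z - 1) ^ 2 ∈ traceField (rep h) := by
      have : (z - 1) ^ 2 = 2 - Matrix.trace ((XX z 1 : M2) * (XX z 2 : M2)) := by
        show _ = 2 - Matrix.trace ((X1 z : M2) * (X2 z : M2))
        rw [c1, c2, Matrix.mul_fin_two, Matrix.trace_fin_two_of]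
        field_simp
        ring
      rw [this]
      exact sub_mem m2 h12
    have hz1' : z - 1 ≠ 0 := sub_ne_zero.2 hz1
    have e3 : z = ((z - 1) ^ 2 / (1 - z⁻¹) ^ 2 + 1 - (z - 1) ^ 2) / 2 := by
      have h4 : (1 - z⁻¹) = (z - 1) / z := by field_simp
      rw [h4]
      field_simp
      ring
    have h5 : ((z - 1) ^ 2 / (1 - z⁻¹) ^ 2 + 1 - (z - 1) ^ 2) / 2 ∈ traceField (rep h) :=
      div_mem (sub_mem (add_mem (div_mem e12 e01) (one_mem _)) e12) m2
    rwa [← e3] at h5

/-- the representation is not reducible: the trace of a commutator is not `2` -/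
theorem irred (hz1 : z ≠ 1) :
    Matrix.trace ((XX z 0 * XX z 1 * (XX z 0)⁻¹ * (XX z 1)⁻¹ : SpecialLinearGroup (Fin 2) ℂ) :
      M2) ≠ 2 := by
  have h : Matrix.trace ((XX z 0 * XX z 1 * (XX z 0)⁻¹ * (XX z 1)⁻¹ :
      SpecialLinearGroup (Fin 2) ℂ) : M2) = 2 + (1 - z⁻¹) ^ 4 := by
    show Matrix.trace ((X0 z * X1 z * (X0 z)⁻¹ * (X1 z)⁻¹ : SpecialLinearGroup (Fin 2) ℂ) :
      M2) = _
    rw [cmul, cmul, cmul, cinv, cinv, c0, c1, Matrix.adjugate_fin_two_of,
      Matrix.adjugate_fin_two_of, Matrix.mul_fin_two, Matrix.mul_fin_two, Matrix.mul_fin_two,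
      Matrix.trace_fin_two_of]
    ring
  rw [h]
  have h1 : (1 - z⁻¹) ≠ 0 := by
    intro h2
    apply hz1
    have : z⁻¹ = 1 := by linear_combination -h2
    exact inv_eq_one.1 this
  intro h3
  exact pow_ne_zero 4 h1 (by linear_combination h3)

/-- parabolic -/
theorem parab (hz : z ≠ 0) (hz1 : z ≠ 1) (i : Fin 3) :
    Matrix.trace (XX z i : M2) = 2 ∧ XX z i ≠ 1 := by
  have h1 : (1 - z⁻¹) ≠ 0 := by
    intro h2
    apply hz1
    have : z⁻¹ = 1 := by linear_combination -h2
    exact inv_eq_one.1 this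
  have hz1' : z - 1 ≠ 0 := sub_ne_zero.2 hz1
  have h01 : (1 : M2) 0 1 = 0 := rfl
  have h10 : (1 : M2) 1 0 = 0 := rfl
  fin_cases i
  · refine ⟨?_, fun h => ?_⟩
    · show Matrix.trace (X0 z : M2) = 2
      rw [c0, Matrix.trace_fin_two_of]
      norm_num
    · have h2 : (X0 z : M2) 0 1 = (1 : M2) 0 1 :=
        congrArg (fun A : SpecialLinearGroup (Fin 2) ℂ => (A : M2) 0 1) h
      exact h1 (h2.trans h01)
  · refine ⟨?_, fun h => ?_⟩
    · show Matrix.trace (X1 z : M2) = 2
      rw [c1, Matrix.trace_fin_two_of]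
      norm_num
    · have h2 : (X1 z : M2) 1 0 = (1 : M2) 1 0 :=
        congrArg (fun A : SpecialLinearGroup (Fin 2) ℂ => (A : M2) 1 0) h
      have h3 : z⁻¹ - 1 = 0 := h2.trans h10
      exact h1 (by linear_combination -h3)
  · refine ⟨?_, fun h => ?_⟩
    · show Matrix.trace (X2 z : M2) = 2
      rw [c2, Matrix.trace_fin_two_of]
      ring
    · have h2 : (X2 z : M2) 0 1 = (1 : M2) 0 1 :=
        congrArg (fun A : SpecialLinearGroup (Fin 2) ℂ => (A : M2) 0 1) h
      exact mul_ne_zero hz hz1' (h2.trans h01)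

end mat

end Pool.Agent.Y472.L.Rep
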