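import Pool.Agent.Y472.L.Defs
import Pool.Agent.Y472.K.AsmX2
import Pool.Agent.W647.FE.GU

/-!
# The Turk's head links: arithmetic of the expansion, assembly (project TA)
-/

set_option autoImplicit false

namespace Pool.Agent.Y472.L

open Finset Filter Topology MeasureTheory Pool.Agent.W711.HT Pool.Agent.Y472.K
open scoped Real Nat

/-- the normalised sum -/
noncomputable def fN (n : ℕ) [NeZero n] (N : ℕ) : ℂ :=
  (∑ c ∈ cfg n N, ct n N c.1 c.2) / (((N : ℝ) ^ (3 / 2 : ℝ) * Real.exp (N * Dn n) : ℝ) : ℂ)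

/-- the expansion of a given length, with the coefficients -/
theorem exp_of (hGBD : S_GBD) (hMLT : S_MLT) (hNAJ : S_NAJ) (n : ℕ) [NeZero n] (hn : 4 ≤ n)
    (hST : STAR n) {Ψ : (Fin n ⊕ Fin n → ℂ) × ℂ → ℂ}
    {R S : QuadraticForm ℝ ((Fin n ⊕ Fin n → ℝ) × ℝ)} (hAX : AX Ψ (wst n) (Dn n) R S) (J : ℕ)
    (τ : ℕ → (Fin n ⊕ Fin n → ℂ) × ℂ → ℂ) (hτ : ∀ l < J, AnalyticAt ℂ (τ l) (cst (wst n, 0)))
    (hLG : LG Ψ (wst n) J (TT n) τ) : ∃ C : ℝ, ∀ᶠ N : ℕ in atTop,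
      ‖fN n N - ∑ j ∈ range J, (-(Complex.I / π) * Pool.Agent.Y306.TKX.cf Ψ (cst (wst n, 0)) (Dn n) J
        τ (2 * j)) * ((N : ℂ)⁻¹) ^ j‖ ≤ C * ((N : ℝ)⁻¹) ^ J := by
  have hb := Pool.Agent.Y51.TK.t_PAR n hn
  have hb1 : 1 / 4 < bs n := hb.2.2.2.2.2.2.1
  have hb2 : bs n < 1 / 3 := hb.2.2.2.2.2.2.2.1
  have hws : ∀ i, 0 < wst n i := by
    rintro (r | r)
    · show 0 < 1 - bs n
      linarith
    · show 0 < bs n
      linarith
  obtain ⟨r, hr, hr2⟩ := hNAJ hGBD hMLT (Fin n ⊕ Fin n) Ψ (wst n) (Dn n) R S hAX hws (TT n)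
    (by
      filter_upwards [eventually_ge_atTop 1] with N hN k
      exact TT_cont n hn hN k) J τ hτ hLG
  have hρ' : 0 < min r π := lt_min hr Real.pi_pos
  obtain ⟨ρX, hρX, hsp⟩ := split_near n hn hST (min r π) hρ' (min_le_right _ _)
  set ρ := min (min r (1 / 12)) (ρX / 2) with hρdef
  have hρ : 0 < ρ := lt_min (lt_min hr (by norm_num)) (by linarith)
  have hρr : ρ ≤ r := (min_le_left _ _).trans (min_le_left _ _)
  have hρ12 : ρ ≤ 1 / 12 := (min_le_left _ _).trans (min_le_right _ _)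
  have hρX2 : ρ < ρX := lt_of_le_of_lt (min_le_right _ _) (by linarith)
  obtain ⟨κ, hκ, hN1⟩ := hsp ρ hρ hρX2
  obtain ⟨C, hN2⟩ := hr2 ρ (min r π) hρ hρr hρ' (min_le_left _ _)
  set a : ℕ → ℂ := fun j => Pool.Agent.Y306.TKX.cf Ψ (cst (wst n, 0)) (Dn n) J τ (2 * j) with ha
  have hN2' : ∀ᶠ N : ℕ in atTop,
      ‖((√(N : ℝ) : ℝ) : ℂ) / ((√(N : ℝ) : ℝ) : ℂ) ^ Fintype.card (Fin n ⊕ Fin n) *
        Complex.exp (-(N * (Dn n : ℂ))) *
        (∑ k ∈ nrs (wst n) ρ N, ∫ x in (-(min r π))..(min r π), TT n N k x) -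
        ∑ j ∈ range J, a j / (N : ℂ) ^ j‖ ≤ C / (N : ℝ) ^ J := hN2
  clear hN2
  show ∃ C : ℝ, ∀ᶠ N : ℕ in atTop,
      ‖fN n N - ∑ j ∈ range J, (-(Complex.I / π) * a j) * ((N : ℂ)⁻¹) ^ j‖ ≤ C * ((N : ℝ)⁻¹) ^ J
  refine ⟨1 + C / π, ?_⟩
  have htz := tz (J : ℝ) κ hκ
  filter_upwards [hN1, hN2', eventually_ge_atTop 1, htz.eventually (gt_mem_nhds one_pos)] with
    N h1 h2 h3 h4
  have hN0 : (0 : ℝ) < N := by exact_mod_cast h3
  have hN01 : (1 : ℝ) ≤ N := by exact_mod_cast h3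
  have hNc : (N : ℂ) ≠ 0 := by exact_mod_cast hN0.ne'
  have hs0 : (0 : ℝ) < √N := Real.sqrt_pos.2 hN0
  have hsc : ((√(N : ℝ) : ℝ) : ℂ) ≠ 0 := by exact_mod_cast hs0.ne'
  have hpc : (π : ℂ) ≠ 0 := by exact_mod_cast Real.pi_ne_zero
  have hcard : Fintype.card (Fin n ⊕ Fin n) = 2 * n := by
    rw [Fintype.card_sum, Fintype.card_fin]
    ring
  have hsq : ((√(N : ℝ) : ℝ) : ℂ) ^ (2 * n) = (N : ℂ) ^ n := by
    rw [pow_mul, ← Complex.ofReal_pow, Real.sq_sqrt hN0.le]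
    norm_cast
  rw [← near_eq n hn hρ12 (min r π) h3, hcard, hsq] at h2
  have h5 : ((√(N : ℝ) : ℝ) : ℂ) / (N : ℂ) ^ n * Complex.exp (-(N * (Dn n : ℂ))) *
      ((N : ℂ) ^ n * nearA n N ρ (min r π)) =
      ((√(N : ℝ) : ℝ) : ℂ) * Complex.exp (-(N * (Dn n : ℂ))) * nearA n N ρ (min r π) := by
    have : (N : ℂ) ^ n ≠ 0 := pow_ne_zero _ hNc
    field_simp
  rw [h5] at h2
  set A := nearA n N ρ (min r π) with hA
  set Z := ∑ c ∈ cfg n N, ct n N c.1 c.2 with hZ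
  have hw : (((N : ℝ) ^ (3 / 2 : ℝ) * Real.exp (N * Dn n) : ℝ) : ℂ) =
      (N : ℂ) ^ 2 / ((√(N : ℝ) : ℝ) : ℂ) * Complex.exp (N * (Dn n : ℂ)) := by
    have h6 : (N : ℝ) ^ (3 / 2 : ℝ) = N ^ 2 / √N := by
      rw [eq_div_iff hs0.ne', Real.sqrt_eq_rpow, ← Real.rpow_add hN0, ← Real.rpow_natCast]
      norm_num
    rw [h6]
    push_cast
    rfl
  have hfN : fN n N =
      Z * (((√(N : ℝ) : ℝ) : ℂ) / (N : ℂ) ^ 2 * Complex.exp (-(N * (Dn n : ℂ)))) := by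
    show Z / (((N : ℝ) ^ (3 / 2 : ℝ) * Real.exp (N * Dn n) : ℝ) : ℂ) = _
    rw [hw, Complex.exp_neg]
    field_simp
  have h7 : fN n N - ∑ j ∈ range J, -(Complex.I / π) * a j * ((N : ℂ)⁻¹) ^ j =
      (Z + Complex.I * N ^ 2 / π * A) *
        (((√(N : ℝ) : ℝ) : ℂ) / (N : ℂ) ^ 2 * Complex.exp (-(N * (Dn n : ℂ)))) -
      Complex.I / π * (((√(N : ℝ) : ℝ) : ℂ) * Complex.exp (-(N * (Dn n : ℂ))) * A -
        ∑ j ∈ range J, a j / (N : ℂ) ^ j) := by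
    have h8 : ∑ j ∈ range J, -(Complex.I / π) * a j * ((N : ℂ)⁻¹) ^ j =
        -(Complex.I / π) * ∑ j ∈ range J, a j / (N : ℂ) ^ j := by
      rw [mul_sum]
      refine sum_congr rfl fun j _ => ?_
      rw [inv_pow]
      ring
    rw [h8, hfN]
    field_simp
    ring
  rw [h7]
  have h9 : ‖((√(N : ℝ) : ℝ) : ℂ) / (N : ℂ) ^ 2 * Complex.exp (-(N * (Dn n : ℂ)))‖ ≤
      Real.exp (-(N * Dn n)) := by
    rw [norm_mul, norm_div, norm_pow, Complex.norm_natCast, Complex.norm_real,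
      Real.norm_of_nonneg hs0.le, Complex.norm_exp]
    have h10 : (-(N * (Dn n : ℂ))).re = -(N * Dn n) := by simp
    rw [h10]
    have h11 : √(N : ℝ) ≤ (N : ℝ) ^ 2 := by
      rw [Real.sqrt_le_left (by positivity)]
      have : (N : ℝ) ≤ N ^ 4 := le_self_pow₀ hN01 (by norm_num)
      calc (N : ℝ) ≤ N ^ 4 := this
        _ = (N ^ 2) ^ 2 := by ring
    have h12 : √(N : ℝ) / (N : ℝ) ^ 2 ≤ 1 := by
      rw [div_le_one (by positivity)]
      exact h11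
    exact mul_le_of_le_one_left (Real.exp_pos _).le h12
  have h13 : Real.exp (-(κ * N)) ≤ ((N : ℝ)⁻¹) ^ J := by
    rw [Real.rpow_natCast] at h4
    rw [inv_pow, ← one_div, le_div_iff₀ (by positivity)]
    linarith
  calc _ ≤ ‖(Z + Complex.I * N ^ 2 / π * A) *
        (((√(N : ℝ) : ℝ) : ℂ) / (N : ℂ) ^ 2 * Complex.exp (-(N * (Dn n : ℂ))))‖ +
      ‖Complex.I / π * (((√(N : ℝ) : ℝ) : ℂ) * Complex.exp (-(N * (Dn n : ℂ))) * A -
        ∑ j ∈ range J, a j / (N : ℂ) ^ j)‖ := norm_sub_le _ _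
    _ ≤ Real.exp (N * (Dn n - κ)) * Real.exp (-(N * Dn n)) + 1 / π * (C / (N : ℝ) ^ J) := by
      rw [norm_mul (Z + Complex.I * N ^ 2 / π * A), norm_mul (Complex.I / (π : ℂ))]
      refine add_le_add (mul_le_mul h1 h9 (norm_nonneg _) (Real.exp_pos _).le) ?_
      rw [norm_div, Complex.norm_I, Complex.norm_real, Real.norm_of_nonneg Real.pi_pos.le]
      exact mul_le_mul_of_nonneg_left h2 (by positivity)
    _ = Real.exp (-(κ * N)) + C / π * ((N : ℝ)⁻¹) ^ J := by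
      rw [← Real.exp_add, inv_pow]
      have : N * (Dn n - κ) + -(N * Dn n) = -(κ * N) := by ring
      rw [this]
      ring
    _ ≤ (1 + C / π) * ((N : ℝ)⁻¹) ^ J := by
      rw [add_mul, one_mul]
      linarith

/-- the coefficients of an expansion are unique -/
theorem coef_uniq {f : ℕ → ℂ} {J J' : ℕ} {a b : ℕ → ℂ} {C C' : ℝ} (hJ : J ≤ J')
    (h : ∀ᶠ N : ℕ in atTop, ‖f N - ∑ j ∈ range J, a j * ((N : ℂ)⁻¹) ^ j‖ ≤ C * ((N : ℝ)⁻¹) ^ J)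
    (h' : ∀ᶠ N : ℕ in atTop,
      ‖f N - ∑ j ∈ range J', b j * ((N : ℂ)⁻¹) ^ j‖ ≤ C' * ((N : ℝ)⁻¹) ^ J') :
    ∀ j < J, a j = b j := by
  have h1 : ∀ᶠ N : ℕ in atTop,
      ‖∑ j ∈ range J, (a j - b j) * ((N : ℂ)⁻¹) ^ j‖ ≤
      (C + |C'| + ∑ j ∈ Ico J J', ‖b j‖) * ((N : ℝ)⁻¹) ^ J := by
    filter_upwards [h, h', eventually_gt_atTop 0] with N h1 h2 hN0
    have hx0 : (0 : ℝ) ≤ (N : ℝ)⁻¹ := by positivity
    have hx1 : (N : ℝ)⁻¹ ≤ 1 := inv_le_one_of_one_le₀ (by exact_mod_cast hN0)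
    have e1 : ∑ j ∈ range J, (a j - b j) * ((N : ℂ)⁻¹) ^ j =
        -(f N - ∑ j ∈ range J, a j * ((N : ℂ)⁻¹) ^ j) +
        (f N - ∑ j ∈ range J', b j * ((N : ℂ)⁻¹) ^ j) +
        ∑ j ∈ Ico J J', b j * ((N : ℂ)⁻¹) ^ j := by
      rw [sum_Ico_eq_sub _ hJ]
      simp only [sub_mul, sum_sub_distrib]
      ring
    rw [e1, add_mul, add_mul]
    refine (norm_add_le _ _).trans (add_le_add ((norm_add_le _ _).trans (add_le_add ?_ ?_)) ?_)
    · rw [norm_neg]; exact h1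
    · refine h2.trans ?_
      calc C' * ((N : ℝ)⁻¹) ^ J' ≤ |C'| * ((N : ℝ)⁻¹) ^ J' := by
            gcongr
            exact le_abs_self _
        _ ≤ |C'| * ((N : ℝ)⁻¹) ^ J := by
            gcongr ?_ * ?_
            exact pow_le_pow_of_le_one hx0 hx1 hJ
    · rw [sum_mul]
      refine (norm_sum_le _ _).trans (sum_le_sum fun i hi => ?_)
      rw [norm_mul, norm_pow, norm_inv, Complex.norm_natCast]
      gcongr ?_ * ?_
      exact pow_le_pow_of_le_one hx0 hx1 (mem_Ico.1 hi).1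
  intro j hj
  exact sub_eq_zero.1 (Pool.Agent.W647.FE.zero_of_small J (fun j => a j - b j) _ h1 j hj)

/-- the second Taylor coefficient of the potential -/
theorem tc_two {ι : Type} [Fintype ι] {Ψ : (ι → ℂ) × ℂ → ℂ} {ws : ι → ℝ} {D : ℝ}
    {R S : QuadraticForm ℝ ((ι → ℝ) × ℝ)} (hA : AX Ψ ws D R S) (t : (ι → ℝ) × ℝ) :
    tc Ψ (cst (ws, 0)) 1 t = 0 ∧
      tc Ψ (cst (ws, 0)) 2 t = -((R t : ℂ) + Complex.I * (S t : ℂ)) := by
  have hd := Pool.Agent.Y306.TKX.hd0_of hA t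
  have h0 := Pool.Agent.Y306.TKX.h0_of hA
  set g : ℂ → ℂ := fun z : ℂ => Ψ (cst (ws, 0) + z • cst t) with hg
  have h1 : tc Ψ (cst (ws, 0)) 1 t = 0 := by
    unfold tc
    rw [iteratedDeriv_one]
    change deriv g 0 / _ = 0
    rw [HasDerivAt.deriv hd, zero_div]
  refine ⟨h1, ?_⟩
  have hga : AnalyticAt ℂ g 0 := by
    have e2 : AnalyticAt ℂ (fun z : ℂ => cst (ws, 0) + z • cst t) 0 :=
      analyticAt_const.add (analyticAt_id.smul analyticAt_const)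
    exact hA.an.comp_of_eq e2 (by rw [zero_smul, add_zero])
  obtain ⟨p, hp⟩ := hga
  obtain ⟨r₀, hp₀⟩ := hp
  have hp : HasFPowerSeriesAt g p 0 := ⟨r₀, hp₀⟩
  have hbig := hp.isBigO_sub_partialSum_pow 3
  simp only [zero_add] at hbig
  have hpc : ∀ k, p.coeff k = iteratedDeriv k g 0 / (k ! : ℂ) := by
    intro k
    have := hp₀.factorial_smul (1 : ℂ) k
    rw [FormalMultilinearSeries.coeff]
    have e1 : (1 : Fin k → ℂ) = fun _ => 1 := rfl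
    rw [iteratedDeriv_eq_iteratedFDeriv, ← this, nsmul_eq_mul, mul_div_cancel_left₀]
    · rfl
    · exact_mod_cast Nat.factorial_ne_zero k
  have hps : ∀ s : ℂ, p.partialSum 3 s = D + tc Ψ (cst (ws, 0)) 2 t * s ^ 2 := by
    intro s
    unfold FormalMultilinearSeries.partialSum
    simp only [sum_range_succ, range_zero, sum_empty, zero_add,
      FormalMultilinearSeries.apply_eq_pow_smul_coeff, hpc, smul_eq_mul]
    have e0 : iteratedDeriv 0 g 0 / ((0 ! : ℕ) : ℂ) = D := by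
      rw [iteratedDeriv_zero, Nat.factorial_zero, Nat.cast_one, div_one]
      show Ψ (cst (ws, 0) + (0 : ℂ) • cst t) = D
      rw [zero_smul, add_zero, h0]
    have e1 : iteratedDeriv 1 g 0 / ((1 ! : ℕ) : ℂ) = 0 := h1
    have e2 : iteratedDeriv 2 g 0 / ((2 ! : ℕ) : ℂ) = tc Ψ (cst (ws, 0)) 2 t := rfl
    rw [e0, e1, e2]
    ring
  obtain ⟨r, C, hr, htay⟩ := hA.tay
  obtain ⟨C', hC'⟩ := hbig.bound
  -- the difference at real points
  set Δ : ℂ := tc Ψ (cst (ws, 0)) 2 t + ((R t : ℂ) + Complex.I * (S t : ℂ)) with hΔ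
  have hev : ∀ᶠ s : ℝ in 𝓝[>] 0, ‖Δ‖ ≤ (C * ‖t‖ ^ 3 + C') * s := by
    have c1 : ∀ᶠ s : ℝ in 𝓝 0, ‖s • t‖ < r := by
      have : Continuous fun s : ℝ => ‖s • t‖ := by fun_prop
      have h2 := this.tendsto 0
      simp only [zero_smul, norm_zero] at h2
      exact h2.eventually_lt_const hr
    have c2 : ∀ᶠ s : ℝ in 𝓝 0, ‖g s - p.partialSum 3 s‖ ≤ C' * ‖‖(s : ℂ)‖ ^ 3‖ := by
      have h2 : Tendsto (fun s : ℝ => (s : ℂ)) (𝓝 0) (𝓝 0) := by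
        have := Complex.continuous_ofReal.tendsto 0
        rwa [Complex.ofReal_zero] at this
      exact h2.eventually hC'
    filter_upwards [nhdsWithin_le_nhds c1, nhdsWithin_le_nhds c2, self_mem_nhdsWithin] with
      s h2 h3 h4
    have hs : (0 : ℝ) < s := h4
    have h5 := htay (s • t) h2
    rw [Pool.Agent.Y306.TKX.cst_add, Pool.Agent.Y306.TKX.cst_smul, QuadraticMap.map_smul,
      QuadraticMap.map_smul, norm_smul, Real.norm_of_nonneg hs.le] at h5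
    rw [hps, Real.norm_of_nonneg (by positivity), Complex.norm_real, Real.norm_of_nonneg hs.le] at h3
    have h6 : Δ * s ^ 2 = (g s - D + (((s * s) • R t : ℝ) : ℂ) +
        Complex.I * (((s * s) • S t : ℝ) : ℂ)) -
        (g s - (D + tc Ψ (cst (ws, 0)) 2 t * s ^ 2)) := by
      rw [hΔ]
      simp only [smul_eq_mul]
      push_cast
      ring
    have h7 : ‖Δ‖ * s ^ 2 ≤ C * (s * ‖t‖) ^ 3 + C' * s ^ 3 := by
      have e1 : ‖Δ * (s : ℂ) ^ 2‖ = ‖Δ‖ * s ^ 2 := by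
        rw [norm_mul, norm_pow, Complex.norm_real, Real.norm_of_nonneg hs.le]
      rw [← e1, h6]
      exact (norm_sub_le _ _).trans (add_le_add h5 h3)
    have h8 : C * (s * ‖t‖) ^ 3 + C' * s ^ 3 = ((C * ‖t‖ ^ 3 + C') * s) * s ^ 2 := by ring
    rw [h8] at h7
    exact le_of_mul_le_mul_right h7 (by positivity)
  have hlim : Tendsto (fun s : ℝ => (C * ‖t‖ ^ 3 + C') * s) (𝓝[>] 0) (𝓝 0) := by
    have : Continuous fun s : ℝ => (C * ‖t‖ ^ 3 + C') * s := by fun_prop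
    have h2 := this.tendsto 0
    rw [mul_zero] at h2
    exact h2.mono_left nhdsWithin_le_nhds
  have hΔ0 : ‖Δ‖ ≤ 0 := ge_of_tendsto hlim hev
  have hΔ1 : Δ = 0 := norm_le_zero_iff.1 hΔ0
  rw [hΔ] at hΔ1
  linear_combination hΔ1

end Pool.Agent.Y472.L
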