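import Pool.Agent.Y472.L.Asm

/-!
# The Turk's head links: arithmetic of the expansion, assembly, part 2 (project TA)
-/

set_option autoImplicit false

namespace Pool.Agent.Y472.L

open Finset Filter Topology MeasureTheory Pool.Agent.W711.HT Pool.Agent.Y472.K
open scoped Real Nat

lemma pI_ne : pI ≠ 0 := by
  unfold pI
  have : (π : ℂ) ≠ 0 := by exact_mod_cast Real.pi_ne_zero
  simp [this]

theorem xpa_of (hGBD : S_GBD) (hMLT : S_MLT) (hPTX : S_PTX) (hJTA : S_JTA) (hJTB : S_JTB)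
    (hJTD : S_JTD) (hWJ : S_WJ) (hQMX : S_QMX) (hGM : S_GM) (hGSQ : S_GSQ) (hNAJ : S_NAJ)
    (hSDJ : S_SDJ) (hQDJ : S_QDJ) (hSRJ : S_SRJ) (hQRJ : S_QRJ) (hBFJ : S_BFJ) (hPSJ : S_PSJ)
    (hLGJ : S_LGJ) : S_XPA := by
  intro n _ hn hST E hzE
  obtain ⟨Lx, σ, c, hSD⟩ := hSDJ
  have hPAR := Pool.Agent.Y51.TK.t_PAR
  have hy : 0 < yn n := (hPAR n hn).2.2.2.2.1
  obtain ⟨Θ, θ, c', hQD⟩ := hQDJ (yn n) hy
  obtain ⟨hΨan, hPX, hΨJ⟩ := hPSJ hPAR hJTA hJTB hJTD hSRJ hQRJ hBFJ Lx σ c hSD n hn Θ θ c' hQD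
  set Ψ := Pool.Agent.Y363.TKX.Psi n (yn n) Lx Θ with hΨdef
  obtain ⟨R, S, hR, hlim⟩ := Pool.Agent.Y180.TK.t_PT hPAR n hn
  have hAX := hPTX hPAR n hn Ψ hΨan hPX R S ⟨hR, hlim⟩
  obtain ⟨hκ, hκ2, hch, -, -, -, -, -, -, hs2, hspos⟩ := hBFJ hPAR n hn E hzE
  have hLG := hLGJ hPAR hJTA hJTB hJTD hSRJ hQRJ hBFJ Lx σ c hSD n hn Θ θ c' hQD
  rw [← hΨdef] at hLG
  have hq : ∀ t, tc Ψ (cst (wst n, 0)) 2 t = -((R t : ℂ) + Complex.I * (S t : ℂ)) :=
    fun t => (tc_two hAX t).2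
  have h1 : ∀ t, tc Ψ (cst (wst n, 0)) 1 t = 0 := fun t => (tc_two hAX t).1
  have hqE : tc Ψ (cst (wst n, 0)) 2 ∈ HP E (ks n) (-1) 2 := (hΨJ E hzE).tc 2 le_rfl
  obtain ⟨G, hG⟩ := hQMX (Fin n ⊕ Fin n) E (ks n) _ R S hκ hR hqE hq
  set I0 : ℂ := ∫ t, Complex.exp (tc Ψ (cst (wst n, 0)) 2 t) with hI0
  set T0 : ℂ := ks n * (((2 * Real.sin (2 * π * bs n) : ℝ) : ℂ) ^ n)⁻¹ with hT0
  set A0 : ℂ := -(Complex.I / π) * T0 * I0 with hA0
  have key : ∀ K : ℕ, ∃ b : ℕ → ℂ, 1 ≤ K → (∀ j, ∃ e ∈ E, b j = pI ^ j * e * A0) ∧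
      ∃ C : ℝ, ∀ᶠ N : ℕ in atTop,
        ‖fN n N - ∑ j ∈ range K, b j * ((N : ℂ)⁻¹) ^ j‖ ≤ C * ((N : ℝ)⁻¹) ^ K := by
    intro K
    by_cases hK : 1 ≤ K
    swap
    · exact ⟨0, fun h => absurd h hK⟩
    obtain ⟨τ, hτ, hτ0, hLGK⟩ := hLG K hK
    refine ⟨fun j => -(Complex.I / π) * Pool.Agent.Y306.TKX.cf Ψ (cst (wst n, 0)) (Dn n) K
      τ (2 * j), fun _ => ⟨?_, exp_of hGBD hMLT hNAJ n hn hST hAX K τ
      (fun l hl => (hτ E hzE l hl).an) hLGK⟩⟩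
    intro j
    obtain ⟨W, hW, hWt⟩ := hWJ (Fin n ⊕ Fin n) E (ks n) (cst (wst n, 0)) Ψ (Dn n) K τ hκ hK
      (hΨJ E hzE) (Pool.Agent.Y306.TKX.h0_of hAX) h1 (hτ E hzE) (2 * j)
    have hW' : W ∈ TP E (ks n) (2 * (j : ℤ)) := by
      have : ((2 * j : ℕ) : ℤ) = 2 * (j : ℤ) := by push_cast; ring
      rwa [this] at hW
    obtain ⟨-, e, he, hint⟩ := hGM (Fin n ⊕ Fin n) E (ks n) _ R S hκ hR hq G hG (j : ℤ) W hW'
    refine ⟨e, he, ?_⟩
    show -(Complex.I / π) * Pool.Agent.Y306.TKX.cf Ψ (cst (wst n, 0)) (Dn n) K τ (2 * j) = _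
    unfold Pool.Agent.Y306.TKX.cf
    simp_rw [hWt]
    have e1 : ∀ t, Complex.exp (tc Ψ (cst (wst n, 0)) 2 t + τ 0 (cst (wst n, 0))) * W t =
        T0 * (Complex.exp (tc Ψ (cst (wst n, 0)) 2 t) * W t) := by
      intro t
      rw [Complex.exp_add, hτ0]
      ring
    simp_rw [e1]
    rw [integral_const_mul, hint, ← hI0, hA0, zpow_natCast]
    ring
  choose b hb using key
  set a : ℕ → ℂ := fun j => b (j + 1) j with ha
  have hab : ∀ K, 1 ≤ K → ∀ j < K, a j = b K j := by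
    intro K hK j hj
    obtain ⟨-, C1, hC1⟩ := hb (j + 1) (by omega)
    obtain ⟨-, C2, hC2⟩ := hb K hK
    exact coef_uniq (show j + 1 ≤ K by omega) hC1 hC2 j (Nat.lt_succ_self j)
  have haE : ∀ j, ∃ e ∈ E, a j = pI ^ j * e * A0 := fun j => (hb (j + 1) (by omega)).1 j
  have hexp1 : ∀ K, 1 ≤ K → ∃ C : ℝ, ∀ᶠ N : ℕ in atTop,
      ‖fN n N - ∑ j ∈ range K, a j * ((N : ℂ)⁻¹) ^ j‖ ≤ C * ((N : ℝ)⁻¹) ^ K := by
    intro K hK
    obtain ⟨-, C, hC⟩ := hb K hK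
    refine ⟨C, ?_⟩
    filter_upwards [hC] with N hN
    have : ∑ j ∈ range K, a j * ((N : ℂ)⁻¹) ^ j = ∑ j ∈ range K, b K j * ((N : ℂ)⁻¹) ^ j :=
      sum_congr rfl fun j hj => by rw [hab K hK j (mem_range.1 hj)]
    rw [this]
    exact hN
  obtain ⟨c0, hc0, hlim2⟩ := lead n hn hST
  have hT1 : Tendsto (fN n) atTop (𝓝 (a 0)) := by
    obtain ⟨C, hC⟩ := hexp1 1 le_rfl
    have h2 : Tendsto (fun N : ℕ => C * ((N : ℝ)⁻¹) ^ 1) atTop (𝓝 0) := by
      have h3 := (tendsto_inv_atTop_zero.comp tendsto_natCast_atTop_atTop :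
        Tendsto (fun N : ℕ => ((N : ℝ))⁻¹) atTop (𝓝 0)).const_mul C
      rw [mul_zero] at h3
      refine h3.congr fun N => ?_
      show C * ((N : ℝ))⁻¹ = _
      rw [pow_one]
    have h4 : Tendsto (fun N => fN n N - a 0) atTop (𝓝 0) := by
      refine squeeze_zero_norm' ?_ h2
      filter_upwards [hC] with N hN
      simpa using hN
    have h5 := h4.add_const (a 0)
    rw [zero_add] at h5
    exact h5.congr fun N => by ring
  have ha0 : a 0 = (c0 : ℂ) := tendsto_nhds_unique hT1 hlim2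
  have ha0n : a 0 ≠ 0 := by
    rw [ha0]
    exact_mod_cast hc0.ne'
  obtain ⟨e0, he0, hae0⟩ := haE 0
  rw [pow_zero, one_mul] at hae0
  have he0n : e0 ≠ 0 := by
    rintro rfl
    exact ha0n (by rw [hae0, zero_mul])
  refine ⟨a, ha0n, ?_, ?_, ?_⟩
  · -- the square of the constant term
    have hpc : (π : ℂ) ≠ 0 := by exact_mod_cast Real.pi_ne_zero
    have hsq := hGSQ (Fin n ⊕ Fin n) E (ks n) _ R S hκ hR hq G hG
    rw [← hI0] at hsq
    have hcard : Fintype.card (Fin n ⊕ Fin n) = 2 * n := by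
      rw [Fintype.card_sum, Fintype.card_fin]
      ring
    rw [hcard] at hsq
    have hdet : G.det ≠ 0 := hG.2.2.1
    have hdetE : G.det ∈ E := by
      rw [Matrix.det_apply]
      refine Subfield.sum_mem _ fun σ _ => ?_
      rw [Units.smul_def, zsmul_eq_mul]
      exact E.mul_mem (E.intCast_mem _) (Subfield.prod_mem _ fun i _ => hG.1 _ _)
    set s : ℂ := ((2 * Real.sin (2 * π * bs n) : ℝ) : ℂ) ^ 2 with hs
    have hs0 : ((2 * Real.sin (2 * π * bs n) : ℝ) : ℂ) ≠ 0 := by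
      have : (2 * Real.sin (2 * π * bs n) : ℝ) ≠ 0 := by positivity
      exact_mod_cast this
    refine ⟨(-1) ^ n * s ^ n * 2 ^ (2 * n - 1) * G.det / e0 ^ 2, ?_, ?_⟩
    · refine E.div_mem (E.mul_mem (E.mul_mem (E.mul_mem ?_ (E.pow_mem hs2 n)) ?_) hdetE)
        (E.pow_mem he0 2)
      · exact E.pow_mem (E.neg_mem E.one_mem) _
      · exact E.pow_mem (by simpa using E.natCast_mem 2) _
    · have hpw : pI ^ (((2 * n : ℕ) : ℤ) - 1) =
          π ^ (2 * n - 1) * (2 ^ (2 * n - 1) * ((-1) ^ n * (-Complex.I))) := by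
        have h2n : (((2 * n : ℕ) : ℤ) - 1) = ((2 * n - 1 : ℕ) : ℤ) := by omega
        rw [h2n, zpow_natCast]
        unfold pI
        rw [mul_pow, mul_pow]
        have hI : Complex.I ^ (2 * n - 1) = (-1) ^ n * (-Complex.I) := by
          have h3 : Complex.I ^ (2 * n - 1) * Complex.I = (-1) ^ n := by
            rw [← pow_succ, show 2 * n - 1 + 1 = 2 * n by omega, pow_mul, Complex.I_sq]
          have h4 : Complex.I ^ (2 * n - 1) = Complex.I ^ (2 * n - 1) * Complex.I *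
              (-Complex.I) := by
            linear_combination Complex.I ^ (2 * n - 1) * (-1 : ℂ) * (-1) * Complex.I_sq + 0
          rw [h4, h3]
        rw [hI]
        ring
      rw [hpw] at hsq
      have hpp : (π : ℂ) ^ (2 * n + 1) = π ^ (2 * n - 1) * π ^ 2 := by
        rw [← pow_add]
        congr 1
        omega
      have hm1 : ((-1 : ℂ)) ^ (2 * n + 1) = -1 := by
        rw [pow_succ, pow_mul]
        norm_num
      rw [hpp, hm1] at hsq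
      have hk : (π : ℂ) ^ (2 * n - 1) ≠ 0 := pow_ne_zero _ hpc
      have hsq2 : I0 ^ 2 * (2 ^ (2 * n - 1) * (-1) ^ n * Complex.I * ks n ^ 2 * G.det) =
          π ^ 2 := by
        apply mul_left_cancel₀ hk
        linear_combination hsq
      have hm : ((-1 : ℂ) ^ n) ^ 2 = 1 := by
        rw [← pow_mul, mul_comm, pow_mul]
        norm_num
      have hsn : s ^ n = (((2 * Real.sin (2 * π * bs n) : ℝ) : ℂ) ^ n) ^ 2 := by
        rw [hs, ← pow_mul, ← pow_mul, Nat.mul_comm]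
      have hsn0 : ((2 * Real.sin (2 * π * bs n) : ℝ) : ℂ) ^ n ≠ 0 := pow_ne_zero _ hs0
      rw [hae0, hA0, hT0, hsn]
      have h6 : (e0 * (-(Complex.I / π) * (ks n *
          (((2 * Real.sin (2 * π * bs n) : ℝ) : ℂ) ^ n)⁻¹) * I0)) ^ 2 *
          ((-1) ^ n * (((2 * Real.sin (2 * π * bs n) : ℝ) : ℂ) ^ n) ^ 2 * 2 ^ (2 * n - 1) *
            G.det / e0 ^ 2) =
          Complex.I ^ 2 / π ^ 2 * (I0 ^ 2 * (2 ^ (2 * n - 1) * (-1) ^ n * ks n ^ 2 * G.det)) := by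
        field_simp
      rw [h6]
      have h7 : Complex.I ^ 2 / π ^ 2 *
          (I0 ^ 2 * (2 ^ (2 * n - 1) * (-1) ^ n * ks n ^ 2 * G.det)) =
          Complex.I / π ^ 2 *
          (I0 ^ 2 * (2 ^ (2 * n - 1) * (-1) ^ n * Complex.I * ks n ^ 2 * G.det)) := by
        ring
      rw [h7, hsq2]
      field_simp
  · intro j
    obtain ⟨e, he, hej⟩ := haE j
    refine ⟨e / e0, E.div_mem he he0, ?_⟩
    rw [hej, hae0]
    field_simp
  · intro K
    rcases Nat.eq_zero_or_pos K with rfl | hK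
    · refine ⟨‖a 0‖ + 1, ?_⟩
      have h2 := (hT1.norm).eventually (gt_mem_nhds (lt_add_one ‖a 0‖))
      filter_upwards [h2] with N hN
      simp only [range_zero, sum_empty, sub_zero, pow_zero, div_one]
      exact hN.le
    · obtain ⟨C, hC⟩ := hexp1 K hK
      refine ⟨C, ?_⟩
      filter_upwards [hC] with N hN
      have h1 : ∑ j ∈ range K, a j * ((N : ℂ)⁻¹) ^ j = ∑ j ∈ range K, a j / (N : ℂ) ^ j :=
        sum_congr rfl fun j _ => by rw [inv_pow]; ring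
      rw [h1, inv_pow] at hN
      exact hN.trans (by rw [div_eq_mul_inv])

end Pool.Agent.Y472.L
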