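import Pool.Agent.Y472.K.DefsX
import Pool.Agent.Y306.TKX.Scl
import Pool.Agent.Y363.TKX.Cmb

/-!
# The Turk's head links: arithmetic of the expansion.  Definitions and statements (project TA)

The coefficients of the expansion to all orders are shown to be in the trace field, up to the
powers of `2 π i` and one common factor.
-/

set_option autoImplicit false

namespace Pool.Agent.Y472.L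

open Finset Filter Topology MeasureTheory Pool.Agent.W711.HT Pool.Agent.Y472.K
open scoped Real Nat

/-- `2 π i` -/
noncomputable def pI : ℂ := 2 * π * Complex.I

section gen

variable {ι : Type} [Fintype ι]

/-- scaled monomials: `(2 π i)^m ∏ (2 π i t_a)^{α_a} (κ t')^β` -/
noncomputable def mn (κ : ℂ) (m : ℤ) (α : ι → ℕ) (β : ℕ) (t : (ι → ℝ) × ℝ) : ℂ :=
  pI ^ m * ((∏ a, (pI * t.1 a) ^ α a) * (κ * t.2) ^ β)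

/-- the span over `E` of the scaled monomials of weight `j` -/
noncomputable def TP (E : Subfield ℂ) (κ : ℂ) (j : ℤ) : Submodule E (((ι → ℝ) × ℝ) → ℂ) :=
  Submodule.span E {f | ∃ (m : ℤ) (α : ι → ℕ) (β : ℕ),
    (∑ a, (α a : ℤ)) + β + 2 * m = j ∧ f = mn κ m α β}

/-- the span over `E` of the scaled monomials of degree `k` with the factor `(2 π i)^m` -/
noncomputable def HP (E : Subfield ℂ) (κ : ℂ) (m : ℤ) (k : ℕ) :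
    Submodule E (((ι → ℝ) × ℝ) → ℂ) :=
  Submodule.span E {f | ∃ (α : ι → ℕ) (β : ℕ), (∑ a, α a) + β = k ∧ f = mn κ m α β}

/-- Taylor coefficients along lines -/
noncomputable def tc (f : (ι → ℂ) × ℂ → ℂ) (p₀ : (ι → ℂ) × ℂ) (k : ℕ) (t : (ι → ℝ) × ℝ) : ℂ :=
  iteratedDeriv k (fun z : ℂ => f (p₀ + z • cst t)) 0 / (k ! : ℂ)

/-- `f` is analytic at `p₀`, and its Taylor coefficients of the orders `≥ k₀` are in `(2 π i)^m E`,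
in the scaled coordinates -/
structure Jt (E : Subfield ℂ) (κ : ℂ) (p₀ : (ι → ℂ) × ℂ) (m : ℤ) (k₀ : ℕ)
    (f : (ι → ℂ) × ℂ → ℂ) : Prop where
  an : AnalyticAt ℂ f p₀
  tc : ∀ k, k₀ ≤ k → tc f p₀ k ∈ HP E κ m k

end gen

/-! ### Calculus of the class `Jt` -/

/-- JTA: sums, products, inverses -/
def S_JTA : Prop := ∀ (ι : Type) [Fintype ι] (E : Subfield ℂ) (κ : ℂ) (p₀ : (ι → ℂ) × ℂ), κ ≠ 0 →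
  (∀ c ∈ E, Jt E κ p₀ 0 0 fun _ => c) ∧
  (∀ (c : ℂ) (m : ℤ), Jt E κ p₀ m 1 fun _ => c) ∧
  (∀ (m : ℤ) (k₀ : ℕ) (f g : (ι → ℂ) × ℂ → ℂ), Jt E κ p₀ m k₀ f → Jt E κ p₀ m k₀ g →
    Jt E κ p₀ m k₀ fun p => f p + g p) ∧
  (∀ (m : ℤ) (k₀ : ℕ) (f : (ι → ℂ) × ℂ → ℂ), ∀ c ∈ E, Jt E κ p₀ m k₀ f →
    Jt E κ p₀ m k₀ fun p => c * f p) ∧
  (∀ (m m' : ℤ) (f g : (ι → ℂ) × ℂ → ℂ), Jt E κ p₀ m 0 f → Jt E κ p₀ m' 0 g →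
    Jt E κ p₀ (m + m') 0 fun p => f p * g p) ∧
  (∀ f : (ι → ℂ) × ℂ → ℂ, Jt E κ p₀ 0 0 f → f p₀ ≠ 0 → Jt E κ p₀ 0 0 fun p => (f p)⁻¹) ∧
  (∀ (m l : ℤ) (k₀ : ℕ) (f : (ι → ℂ) × ℂ → ℂ), Jt E κ p₀ m k₀ f →
    Jt E κ p₀ (l + m) k₀ fun p => pI ^ l * f p) ∧
  (∀ (m : ℤ) (k₀ k₁ : ℕ) (f : (ι → ℂ) × ℂ → ℂ), k₀ ≤ k₁ → Jt E κ p₀ m k₀ f →
    Jt E κ p₀ m k₁ f) ∧
  (∀ (m : ℤ) (k₀ : ℕ) (f g : (ι → ℂ) × ℂ → ℂ), f =ᶠ[𝓝 p₀] g → Jt E κ p₀ m k₀ f →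
    Jt E κ p₀ m k₀ g)

/-- JTB: exponentials and trigonometric functions -/
def S_JTB : Prop := ∀ (ι : Type) [Fintype ι] (E : Subfield ℂ) (κ : ℂ) (p₀ : (ι → ℂ) × ℂ), κ ≠ 0 →
  (∀ c : ι → ℤ, Complex.exp (pI * ∑ a, c a * p₀.1 a) ∈ E →
    Jt E κ p₀ 0 0 fun p => Complex.exp (pI * ∑ a, c a * p.1 a)) ∧
  (∀ y : ℝ, κ = Complex.I * Real.sinh y → (Real.cosh y : ℂ) ∈ E → p₀.2 = 0 →
    (Jt E κ p₀ 0 0 fun p => Complex.cos (p.2 + y * Complex.I)) ∧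
    (Jt E κ p₀ 0 0 fun p => Complex.sin (p.2 + y * Complex.I) / κ))

/-- JTD: from the derivatives along lines to the function -/
def S_JTD : Prop := ∀ (ι : Type) [Fintype ι] (E : Subfield ℂ) (κ : ℂ) (p₀ : (ι → ℂ) × ℂ), κ ≠ 0 →
  (∀ (m : ℤ) (f : (ι → ℂ) × ℂ → ℂ) (A : ι → (ι → ℂ) × ℂ → ℂ) (B : (ι → ℂ) × ℂ → ℂ),
    AnalyticAt ℂ f p₀ → (∀ a, Jt E κ p₀ m 0 (A a)) → Jt E κ p₀ m 0 B →
    (∀ t : (ι → ℝ) × ℝ, ∀ᶠ z in 𝓝 (0 : ℂ), deriv (fun s : ℂ => f (p₀ + s • cst t)) z =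
      (∑ a, (pI * t.1 a) * A a (p₀ + z • cst t)) + (κ * t.2) * B (p₀ + z • cst t)) →
    Jt E κ p₀ m 1 f) ∧
  (∀ (m : ℤ) (f : (ι → ℂ) × ℂ → ℂ) (A : ι → ι → (ι → ℂ) × ℂ → ℂ) (B : ι → (ι → ℂ) × ℂ → ℂ)
    (C : (ι → ℂ) × ℂ → ℂ),
    AnalyticAt ℂ f p₀ → (∀ a b, Jt E κ p₀ m 0 (A a b)) → (∀ a, Jt E κ p₀ m 0 (B a)) →
    Jt E κ p₀ m 0 C →
    (∀ t : (ι → ℝ) × ℝ, ∀ᶠ z in 𝓝 (0 : ℂ), deriv (deriv fun s : ℂ => f (p₀ + s • cst t)) z =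
      (∑ a, ∑ b, (pI * t.1 a) * (pI * t.1 b) * A a b (p₀ + z • cst t)) +
      (∑ a, (pI * t.1 a) * (κ * t.2) * B a (p₀ + z • cst t)) +
      (κ * t.2) ^ 2 * C (p₀ + z • cst t)) →
    Jt E κ p₀ m 2 f)

/-! ### The coefficients of Laplace's method -/

/-- WJ: the Taylor coefficients of the integrand -/
def S_WJ : Prop := ∀ (ι : Type) [Fintype ι] (E : Subfield ℂ) (κ : ℂ) (p₀ : (ι → ℂ) × ℂ)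
  (Ψ : (ι → ℂ) × ℂ → ℂ) (D : ℝ) (K : ℕ) (τ : ℕ → (ι → ℂ) × ℂ → ℂ), κ ≠ 0 → 1 ≤ K →
  Jt E κ p₀ (-1) 2 Ψ → Ψ p₀ = D → (∀ t, tc Ψ p₀ 1 t = 0) →
  (∀ l : ℕ, l < K → Jt E κ p₀ l (if l = 0 then 1 else 0) (τ l)) →
  ∀ j : ℕ, ∃ W ∈ TP E κ (j : ℤ), ∀ t : (ι → ℝ) × ℝ,
    iteratedDeriv j (fun z => Pool.Agent.Y306.TKX.Ef Ψ p₀ D K τ z t) 0 / (j ! : ℂ) =
      Complex.exp (tc Ψ p₀ 2 t + τ 0 p₀) * W t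

/-- the scaled coordinates -/
noncomputable def uc {ι : Type} (κ : ℂ) (t : (ι → ℝ) × ℝ) : Option ι → ℂ
  | some a => pI * t.1 a
  | none => κ * t.2

/-- the matrix of a quadratic form with values in `E` -/
def QM (ι : Type) [Fintype ι] [DecidableEq ι] (E : Subfield ℂ) (κ : ℂ)
    (q : ((ι → ℝ) × ℝ) → ℂ) (G : Matrix (Option ι) (Option ι) ℂ) : Prop :=
  (∀ i j, G i j ∈ E) ∧ G.IsSymm ∧ G.det ≠ 0 ∧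
    ∀ t, q t = pI⁻¹ * ∑ i, ∑ j, G i j * uc κ t i * uc κ t j

/-- QMX: the matrix of the quadratic part -/
def S_QMX : Prop := ∀ (ι : Type) [Fintype ι] [DecidableEq ι] (E : Subfield ℂ) (κ : ℂ)
  (q : ((ι → ℝ) × ℝ) → ℂ) (R S : QuadraticForm ℝ ((ι → ℝ) × ℝ)), κ ≠ 0 → R.PosDef →
  q ∈ HP E κ (-1) 2 → (∀ t, q t = -((R t : ℂ) + Complex.I * (S t : ℂ))) →
  ∃ G : Matrix (Option ι) (Option ι) ℂ, QM ι E κ q G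

/-- GM: Gaussian moments -/
def S_GM : Prop := ∀ (ι : Type) [Fintype ι] [DecidableEq ι] (E : Subfield ℂ) (κ : ℂ)
  (q : ((ι → ℝ) × ℝ) → ℂ) (R S : QuadraticForm ℝ ((ι → ℝ) × ℝ)), κ ≠ 0 → R.PosDef →
  (∀ t, q t = -((R t : ℂ) + Complex.I * (S t : ℂ))) →
  ∀ G : Matrix (Option ι) (Option ι) ℂ, QM ι E κ q G →
  ∀ (J : ℤ), ∀ W ∈ TP E κ (2 * J), Integrable (fun t => Complex.exp (q t) * W t) ∧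
    ∃ e ∈ E, ∫ t, Complex.exp (q t) * W t = pI ^ J * e * ∫ t, Complex.exp (q t)

/-- GSQ: the square of the Gaussian integral -/
def S_GSQ : Prop := ∀ (ι : Type) [Fintype ι] [DecidableEq ι] (E : Subfield ℂ) (κ : ℂ)
  (q : ((ι → ℝ) × ℝ) → ℂ) (R S : QuadraticForm ℝ ((ι → ℝ) × ℝ)), κ ≠ 0 → R.PosDef →
  (∀ t, q t = -((R t : ℂ) + Complex.I * (S t : ℂ))) →
  ∀ G : Matrix (Option ι) (Option ι) ℂ, QM ι E κ q G →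
  (∫ t, Complex.exp (q t)) ^ 2 *
    (pI ^ ((Fintype.card ι : ℤ) - 1) * κ ^ 2 * ((-1) ^ (Fintype.card ι + 1) * G.det)) =
    (π : ℂ) ^ (Fintype.card ι + 1)

/-! ### Expansions with a given expansion of the logarithm -/

/-- the logarithm of `T N k x`, `x` and `k / N - ws` small, is `N Ψ + ∑ τ_l / N^l` up to the order
`K` -/
def LG {ι : Type} [Fintype ι] (Ψ : (ι → ℂ) × ℂ → ℂ) (ws : ι → ℝ) (K : ℕ)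
    (T : ℕ → (ι → ℕ) → ℝ → ℂ) (τ : ℕ → (ι → ℂ) × ℂ → ℂ) : Prop :=
  ∃ r C : ℝ, 0 < r ∧ ∀ᶠ N : ℕ in atTop, ∀ (k : ι → ℕ) (x : ℝ),
    (∀ i, |(k i : ℝ) / N - ws i| < r) → |x| < r → ∃ e : ℂ, ‖e‖ ≤ C / (N : ℝ) ^ K ∧
      T N k x = Complex.exp (N * Ψ (cst (fun i => (k i : ℝ) / N, x)) +
        ∑ l ∈ range K, τ l (cst (fun i => (k i : ℝ) / N, x)) / (N : ℂ) ^ l + e)

/-- NAJ: `S_NAL` with the coefficients -/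
def S_NAJ : Prop := S_GBD → S_MLT → ∀ (ι : Type) [Fintype ι] [DecidableEq ι]
  (Ψ : (ι → ℂ) × ℂ → ℂ) (ws : ι → ℝ) (D : ℝ) (R S : QuadraticForm ℝ ((ι → ℝ) × ℝ)), AX Ψ ws D R S →
  (∀ i, 0 < ws i) → ∀ T : ℕ → (ι → ℕ) → ℝ → ℂ, (∀ᶠ N : ℕ in atTop, ∀ k, Continuous (T N k)) →
  ∀ (K : ℕ) (τ : ℕ → (ι → ℂ) × ℂ → ℂ), (∀ l < K, AnalyticAt ℂ (τ l) (cst (ws, 0))) →
    LG Ψ ws K T τ → ∃ r : ℝ, 0 < r ∧ ∀ ρ ρ' : ℝ, 0 < ρ → ρ ≤ r → 0 < ρ' → ρ' ≤ r →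
    ∃ C : ℝ, ∀ᶠ N : ℕ in atTop,
      ‖((√(N : ℝ) : ℝ) : ℂ) / ((√(N : ℝ) : ℝ) : ℂ) ^ Fintype.card ι * Complex.exp (-(N * D)) *
        (∑ k ∈ nrs ws ρ N, ∫ x in (-ρ')..ρ', T N k x) -
        ∑ j ∈ range K, Pool.Agent.Y306.TKX.cf Ψ (cst (ws, 0)) D K τ (2 * j) / (N : ℂ) ^ j‖ ≤
      C / (N : ℝ) ^ K

/-! ### The factors -/

/-- `π cot π w` and its derivatives -/
noncomputable def ct1 (k : ℕ) (w : ℂ) : ℂ :=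
  iteratedDeriv k (fun v : ℂ => π * Complex.cos (π * v) / Complex.sin (π * v)) w

/-- `2 cos χ - 2 cos 2 π w` -/
noncomputable def dn (w χ : ℂ) : ℂ := 2 * Complex.cos χ - 2 * Complex.cos (2 * π * w)

/-- the derivatives in `w` of `4 π sin (2 π w) / (2 cos χ - 2 cos 2 π w)` -/
noncomputable def qt1 (k : ℕ) (w χ : ℂ) : ℂ :=
  iteratedDeriv k (fun v : ℂ => 4 * π * Complex.sin (2 * π * v) / dn v χ) w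

/-- the expansion of the products of sines, with formulas for the coefficients -/
def SDd (Lx : ℂ → ℂ) (σ : ℕ → ℂ → ℂ) (c : ℕ → ℚ) : Prop :=
  (∀ δ : ℝ, 0 < δ → δ < 1 → AnalyticAt ℂ Lx δ ∧ Lx δ = (Lc δ : ℂ) ∧
    ∀ᶠ w in 𝓝 (δ : ℂ), deriv (deriv Lx) w = -ct1 0 w) ∧
  (∀ k, ∀ δ : ℝ, 0 < δ → δ < 1 → AnalyticAt ℂ (σ k) δ) ∧
  (∀ δ : ℝ, 0 < δ → δ < 1 → Complex.exp (σ 0 δ) ^ 2 = 1 / (2 * Real.sin (π * δ) : ℝ) ∧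
    ∀ᶠ w in 𝓝 (δ : ℂ), deriv (σ 0) w = -(1 / 2) * ct1 0 w ∧
      ∀ k, σ (k + 1) w = c k * ct1 k w) ∧
  ∀ δ₀ : ℝ, 0 < δ₀ → δ₀ < 1 / 2 → ∀ K : ℕ, ∃ C : ℝ, ∀ᶠ N : ℕ in atTop, ∀ m : ℕ,
    δ₀ * N ≤ m → (m : ℝ) ≤ (1 - δ₀) * N → ∃ e : ℂ, ‖e‖ ≤ C / (N : ℝ) ^ K ∧
      ((√(N : ℝ) : ℝ) : ℂ) / (Sd N m : ℂ) =
        Complex.exp (N * Lx ((m : ℂ) / N) + ∑ k ∈ range K, σ k ((m : ℂ) / N) / (N : ℂ) ^ k + e)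

/-- SDJ: `S_SDX`, with formulas for the coefficients -/
def S_SDJ : Prop := ∃ (Lx : ℂ → ℂ) (σ : ℕ → ℂ → ℂ) (c : ℕ → ℚ), SDd Lx σ c

/-- the expansion of `Pq`, with formulas for the coefficients -/
def QDd (y : ℝ) (Θ : ℂ → ℂ → ℂ) (θ : ℕ → ℂ → ℂ → ℂ) (c : ℕ → ℚ) : Prop :=
  (∀ t : ℝ, 0 ≤ t → t ≤ 1 → AnalyticAt ℂ (fun p : ℂ × ℂ => Θ p.1 p.2) ((t : ℂ), y * Complex.I)) ∧
  (∀ k, ∀ t : ℝ, 0 ≤ t → t ≤ 1 →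
    AnalyticAt ℂ (fun p : ℂ × ℂ => θ k p.1 p.2) ((t : ℂ), y * Complex.I)) ∧
  (∀ t : ℝ, 0 ≤ t → t ≤ 1 → ∀ᶠ p in 𝓝 (((t : ℂ), y * Complex.I) : ℂ × ℂ), ∀ a b : ℂ,
    deriv (deriv fun s : ℂ => Θ (p.1 + s * a) (p.2 + s * b)) 0 =
      a ^ 2 * (4 * π * Complex.sin (2 * π * p.1) / dn p.1 p.2) -
      2 * a * b * (2 * Complex.sin p.2 / dn p.1 p.2) +
      b ^ 2 * (Complex.sin (2 * π * p.1) / (π * dn p.1 p.2))) ∧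
  (∀ t : ℝ, 0 ≤ t → t ≤ 1 → ∀ᶠ p in 𝓝 (((t : ℂ), y * Complex.I) : ℂ × ℂ),
    (∀ a b : ℂ, deriv (fun s : ℂ => θ 0 (p.1 + s * a) (p.2 + s * b)) 0 =
      (1 / 2) * (a * (4 * π * Complex.sin (2 * π * p.1) / dn p.1 p.2) -
        b * (2 * Complex.sin p.2 / dn p.1 p.2))) ∧
    ∀ k, θ (k + 1) p.1 p.2 = c k * qt1 k p.1 p.2) ∧
  (∀ t : ℝ, 0 ≤ t → t ≤ 1 → θ 0 ((1 - t : ℝ) : ℂ) (y * Complex.I) = θ 0 (t : ℂ) (y * Complex.I)) ∧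
  ∃ r : ℝ, 0 < r ∧
    (∀ a b x : ℝ, 0 ≤ a → a ≤ 1 → 0 ≤ b → b ≤ 1 → |x| < r →
      Θ a (x + y * Complex.I) - Θ b (x + y * Complex.I) = ∫ t in b..a, clf x y t) ∧
    ∀ K : ℕ, ∃ C : ℝ, ∀ᶠ N : ℕ in atTop, ∀ j i : ℕ, j ≤ i → i ≤ N → ∀ x : ℝ, |x| < r →
      ∃ e : ℂ, ‖e‖ ≤ C / (N : ℝ) ^ K ∧ Pq N j i (x + y * Complex.I) =
        Complex.exp (N * (Θ ((i : ℂ) / N) (x + y * Complex.I) -
            Θ ((j : ℂ) / N) (x + y * Complex.I)) +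
          ∑ k ∈ range K, (θ k ((i : ℂ) / N) (x + y * Complex.I) -
            θ k ((j : ℂ) / N) (x + y * Complex.I)) / (N : ℂ) ^ k + e)

/-- QDJ: `S_QDX`, with formulas for the coefficients -/
def S_QDJ : Prop := ∀ y : ℝ, 0 < y → ∃ (Θ : ℂ → ℂ → ℂ) (θ : ℕ → ℂ → ℂ → ℂ) (c : ℕ → ℚ),
  QDd y Θ θ c

/-- SRJ: `π cot π (w_a - w_b)` and its derivatives -/
def S_SRJ : Prop := S_JTA → S_JTB → ∀ (ι : Type) [Fintype ι] (E : Subfield ℂ) (κ : ℂ)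
  (p₀ : (ι → ℂ) × ℂ) (a b : ι), κ ≠ 0 → Complex.exp (pI * (p₀.1 a - p₀.1 b)) ∈ E →
  Complex.sin (π * (p₀.1 a - p₀.1 b)) ≠ 0 →
  ∀ k : ℕ, Jt E κ p₀ ((k : ℤ) + 1) 0 fun p => ct1 k (p.1 a - p.1 b)

/-- QRJ: the functions `qt1` and the coefficients of the derivatives of `Θ` -/
def S_QRJ : Prop := S_JTA → S_JTB → ∀ (ι : Type) [Fintype ι] (E : Subfield ℂ) (κ : ℂ)
  (p₀ : (ι → ℂ) × ℂ) (a : ι) (y : ℝ), κ ≠ 0 → κ = Complex.I * Real.sinh y →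
  (Real.cosh y : ℂ) ∈ E → p₀.2 = 0 → Complex.exp (pI * p₀.1 a) ∈ E →
  dn (p₀.1 a) (y * Complex.I) ≠ 0 →
  (∀ k : ℕ, Jt E κ p₀ ((k : ℤ) + 1) 0 fun p => qt1 k (p.1 a) (p.2 + y * Complex.I)) ∧
  (Jt E κ p₀ 0 0 fun p => 2 * Complex.sin (p.2 + y * Complex.I) /
    (κ * dn (p.1 a) (p.2 + y * Complex.I))) ∧
  (Jt E κ p₀ (-1) 0 fun p => Complex.sin (2 * π * p.1 a) /
    (π * κ ^ 2 * dn (p.1 a) (p.2 + y * Complex.I))) ∧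
  (Jt E κ p₀ 0 0 fun p => Complex.cos (p.2 + y * Complex.I) /
    (κ * Complex.sin (p.2 + y * Complex.I)))

/-! ### The summand -/

/-- the generator of the trace field: `e^{2 π i b⋆}` -/
noncomputable def zs (n : ℕ) : ℂ := Complex.exp (pI * bs n)

/-- the scale of the last variable -/
noncomputable def ks (n : ℕ) : ℂ := Complex.I * Real.sinh (yn n)

/-- BFJ: elementary facts -/
def S_BFJ : Prop := S_PAR → ∀ n : ℕ, 4 ≤ n → ∀ E : Subfield ℂ, zs n ∈ E →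
  ks n ≠ 0 ∧ ks n ^ 2 ∈ E ∧ (Real.cosh (yn n) : ℂ) ∈ E ∧
  Complex.exp (pI * ((1 - bs n : ℝ) : ℂ)) ∈ E ∧ Complex.exp (pI * ((bs n : ℝ) : ℂ)) ∈ E ∧
  Complex.exp (pI * (((1 - bs n : ℝ) : ℂ) - ((bs n : ℝ) : ℂ))) ∈ E ∧
  Complex.sin (π * (((1 - bs n : ℝ) : ℂ) - ((bs n : ℝ) : ℂ))) ≠ 0 ∧
  dn ((1 - bs n : ℝ) : ℂ) (yn n * Complex.I) ≠ 0 ∧ dn ((bs n : ℝ) : ℂ) (yn n * Complex.I) ≠ 0 ∧
  ((2 * Real.sin (2 * π * bs n) : ℝ) : ℂ) ^ 2 ∈ E ∧ 0 < Real.sin (2 * π * bs n)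

/-- PSJ: the potential -/
def S_PSJ : Prop := S_PAR → S_JTA → S_JTB → S_JTD → S_SRJ → S_QRJ → S_BFJ →
  ∀ (Lx : ℂ → ℂ) (σ : ℕ → ℂ → ℂ) (c : ℕ → ℚ), SDd Lx σ c → ∀ (n : ℕ) [NeZero n], 4 ≤ n →
  ∀ (Θ : ℂ → ℂ → ℂ) (θ : ℕ → ℂ → ℂ → ℂ) (c' : ℕ → ℚ), QDd (yn n) Θ θ c' →
  AnalyticAt ℂ (Pool.Agent.Y363.TKX.Psi n (yn n) Lx Θ) (cst (wst n, 0)) ∧
  PX n (Pool.Agent.Y363.TKX.Psi n (yn n) Lx Θ) ∧ ∀ E : Subfield ℂ, zs n ∈ E →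
  Jt E (ks n) (cst (wst n, 0)) (-1) 2 (Pool.Agent.Y363.TKX.Psi n (yn n) Lx Θ)

/-- LGJ: the expansion of the logarithm of the summand -/
def S_LGJ : Prop := S_PAR → S_JTA → S_JTB → S_JTD → S_SRJ → S_QRJ → S_BFJ →
  ∀ (Lx : ℂ → ℂ) (σ : ℕ → ℂ → ℂ) (c : ℕ → ℚ), SDd Lx σ c → ∀ (n : ℕ) [NeZero n], 4 ≤ n →
  ∀ (Θ : ℂ → ℂ → ℂ) (θ : ℕ → ℂ → ℂ → ℂ) (c' : ℕ → ℚ), QDd (yn n) Θ θ c' →
  ∀ K : ℕ, 1 ≤ K → ∃ τ : ℕ → (Fin n ⊕ Fin n → ℂ) × ℂ → ℂ,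
    (∀ E : Subfield ℂ, zs n ∈ E →
      ∀ l : ℕ, l < K → Jt E (ks n) (cst (wst n, 0)) l (if l = 0 then 1 else 0) (τ l)) ∧
    Complex.exp (τ 0 (cst (wst n, 0))) = ks n * (((2 * Real.sin (2 * π * bs n) : ℝ) : ℂ) ^ n)⁻¹ ∧
    LG (Pool.Agent.Y363.TKX.Psi n (yn n) Lx Θ) (wst n) K (TT n) τ

/-! ### The result -/

/-- XPA: the expansion to all orders; the coefficients -/
def S_XPA : Prop := ∀ (n : ℕ) [NeZero n], 4 ≤ n → STAR n → ∀ E : Subfield ℂ, zs n ∈ E →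
  ∃ a : ℕ → ℂ, a 0 ≠ 0 ∧ (∃ δ ∈ E, a 0 ^ 2 * δ = Complex.I) ∧
  (∀ j, ∃ e ∈ E, a j = pI ^ j * e * a 0) ∧
  ∀ K : ℕ, ∃ C : ℝ, ∀ᶠ N : ℕ in atTop,
    ‖(∑ c ∈ cfg n N, ct n N c.1 c.2) / (((N : ℝ) ^ (3 / 2 : ℝ) * Real.exp (N * Dn n) : ℝ) : ℂ) -
      ∑ j ∈ range K, a j / (N : ℂ) ^ j‖ ≤ C / (N : ℝ) ^ K

end Pool.Agent.Y472.L
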