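import Pool.Agent.Y472.L.Asm
import Pool.Agent.Y472.K.Out

/-!
# The Turk's head links: arithmetic of the expansion, form of the result (project TA)
-/

set_option autoImplicit false

namespace Pool.Agent.Y472.L

open Finset Filter Topology Pool.Agent.Y472.K
open scoped Real

/-- the coefficients of the expansion of the Kashaev invariants -/
theorem arith_of (hXPA : S_XPA) (n : ℕ) (hn : 4 ≤ n) : ∃ a : ℕ → ℝ,
    Out.Ex (Out.JJ n) (2 * Real.pi * Dn n) a ∧ ∀ E : Subfield ℂ, zs n ∈ E →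
      (∃ δ ∈ E, (a 0 : ℂ) ^ 2 * δ = Complex.I) ∧
      ∀ j, ∃ e ∈ E, (a j : ℂ) = pI ^ j * e * (a 0 : ℂ) := by
  have : NeZero n := ⟨by omega⟩
  obtain ⟨a, ha⟩ := Out.ex n hn
  refine ⟨a, ha, fun E hE => ?_⟩
  obtain ⟨b, -, hb2, hb3, hb4⟩ := hXPA n hn (star4 hn) E hE
  have hab : ∀ j, (a j : ℂ) = b j := by
    intro j
    obtain ⟨C1, h1⟩ := ha.exp (j + 1)
    obtain ⟨C2, h2⟩ := hb4 (j + 1)
    have h3 : ∀ᶠ N : ℕ in atTop,
        ‖fN n N - ∑ i ∈ range (j + 1), (a i : ℂ) * ((N : ℂ)⁻¹) ^ i‖ ≤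
          C1 * ((N : ℝ)⁻¹) ^ (j + 1) := by
      filter_upwards [h1, eventually_ge_atTop 2] with N hN h2N
      have e1 : Out.JJ n N / ((Lim.w (2 * Real.pi * Dn n) N : ℝ) : ℂ) = fN n N := by
        have e2 : Lim.w (2 * Real.pi * Dn n) N = (N : ℝ) ^ (3 / 2 : ℝ) * Real.exp (N * Dn n) := by
          unfold Lim.w
          congr 2
          have := Real.pi_ne_zero
          field_simp
        unfold fN
        rw [e2, ← exac n N h2N]
        rfl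
      rw [e1] at hN
      have e3 : ∑ i ∈ range (j + 1), (a i : ℂ) * ((N : ℂ)⁻¹) ^ i =
          ∑ i ∈ range (j + 1), (a i : ℂ) / (N : ℂ) ^ i :=
        sum_congr rfl fun i _ => by rw [inv_pow]; ring
      rw [e3, inv_pow, ← div_eq_mul_inv]
      exact hN
    have h4 : ∀ᶠ N : ℕ in atTop,
        ‖fN n N - ∑ i ∈ range (j + 1), b i * ((N : ℂ)⁻¹) ^ i‖ ≤ C2 * ((N : ℝ)⁻¹) ^ (j + 1) := by
      filter_upwards [h2] with N hN
      have e3 : ∑ i ∈ range (j + 1), b i * ((N : ℂ)⁻¹) ^ i =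
          ∑ i ∈ range (j + 1), b i / (N : ℂ) ^ i :=
        sum_congr rfl fun i _ => by rw [inv_pow]; ring
      rw [e3, inv_pow, ← div_eq_mul_inv]
      exact hN
    exact coef_uniq le_rfl h3 h4 j (Nat.lt_succ_self j)
  refine ⟨?_, fun j => ?_⟩
  · rw [hab 0]
    exact hb2
  · rw [hab 0, hab j]
    exact hb3 j

/-- the same with the coefficients at the powers of `2 π i / N` -/
theorem arith2_of (hXPA : S_XPA) (n : ℕ) (hn : 4 ≤ n) : ∃ a : ℕ → ℝ,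
    Out.Ex (Out.JJ n) (2 * Real.pi * Dn n) a ∧ ∀ E : Subfield ℂ, zs n ∈ E →
      ∃ δ ∈ E, δ ≠ 0 ∧ ∃ s : ℂ, s ^ 2 = δ ∧ (a 0 : ℂ) * s = Complex.exp (2 * π * Complex.I / 8) ∧
      ∀ j, ∃ e ∈ E, (a j : ℂ) / (2 * π * Complex.I) ^ j = e * (a 0 : ℂ) := by
  obtain ⟨a, ha, h⟩ := arith_of hXPA n hn
  refine ⟨a, ha, fun E hE => ?_⟩
  obtain ⟨⟨δ, hδ, hδ2⟩, h3⟩ := h E hE
  have ha0 : (a 0 : ℂ) ≠ 0 := by exact_mod_cast ha.pos.ne'
  have h8 : Complex.exp (2 * π * Complex.I / 8) ^ 2 = Complex.I := by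
    have e : ((2 : ℕ) : ℂ) * (2 * π * Complex.I / 8) = π / 2 * Complex.I := by
      push_cast
      ring
    rw [← Complex.exp_nat_mul, e, Complex.exp_pi_div_two_mul_I]
  refine ⟨δ, hδ, ?_, Complex.exp (2 * π * Complex.I / 8) / a 0, ?_, ?_, fun j => ?_⟩
  · rintro rfl
    rw [mul_zero] at hδ2
    exact Complex.I_ne_zero hδ2.symm
  · rw [div_pow, h8, div_eq_iff (pow_ne_zero 2 ha0)]
    linear_combination -hδ2
  · field_simp
  · obtain ⟨e, he, hej⟩ := h3 j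
    refine ⟨e, he, ?_⟩
    rw [hej]
    have hp : (2 * π * Complex.I : ℂ) ^ j ≠ 0 := pow_ne_zero _ Complex.two_pi_I_ne_zero
    unfold pI
    field_simp

end Pool.Agent.Y472.L
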