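import Pool.Agent.Y472.L.Defs
import Pool.Agent.Y275.TKX.Nal

/-!
# NAJ: expansion of the sum over the lattice points near the critical point, with coefficients

After `Pool/Agent/Y275/TKX/Nal.lean` and `Pool/Agent/Y306/TKX/Scl.lean`.
-/

set_option autoImplicit false

namespace Pool.Agent.Y472.L

section scl

open Filter MeasureTheory Metric Set Pool.Agent.Y472.K
open scoped Real Topology Nat Pointwise

theorem sclj (hG : S_GBD) : ∀ (ι : Type) [Fintype ι] (Ψ : (ι → ℂ) × ℂ → ℂ) (ws : ι → ℝ) (D : ℝ)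
    (R S : QuadraticForm ℝ ((ι → ℝ) × ℝ)), AX Ψ ws D R S → ∀ (K : ℕ) (τ : ℕ → (ι → ℂ) × ℂ → ℂ),
    (∀ l < K, AnalyticAt ℂ (τ l) (cst (ws, 0))) → ∃ r : ℝ, 0 < r ∧
    ∀ ρ ρ' : ℝ, 0 < ρ → ρ ≤ r → 0 < ρ' → ρ' ≤ r → ∀ J : ℕ, ∃ C : ℝ,
      ∀ᶠ N : ℕ in atTop, ‖((√(N : ℝ) : ℝ) : ℂ) ^ (Fintype.card ι + 1) *
        (∫ u in bx ι ρ ρ', FX Ψ D τ K N (cst (fun i => ws i + u.1 i, u.2))) -
        ∑ j ∈ Finset.range J, Pool.Agent.Y306.TKX.cf Ψ (cst (ws, 0)) D K τ (2 * j) / (N : ℂ) ^ j‖ ≤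
        C / (N : ℝ) ^ J := by
  intro ι _ Ψ ws D R S hA K τ hτ
  obtain ⟨r₁, c, C, hr₁, hc, hd, hre, -⟩ := hG ι Ψ ws D R S hA
  -- the functions `τ`
  have hev : ∀ᶠ p in 𝓝 (cst (ws, 0)), (∀ l ∈ Finset.range K, DifferentiableAt ℂ (τ l) p) ∧
      ∑ l ∈ Finset.range K, ‖τ l p‖ < (∑ l ∈ Finset.range K, ‖τ l (cst (ws, 0))‖) + 1 := by
    apply Eventually.and
    · rw [Filter.eventually_all_finset]
      intro l hl
      exact (hτ l (Finset.mem_range.1 hl)).eventually_analyticAt.mono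
        (fun p hp => hp.differentiableAt)
    · have hcont : ContinuousAt (fun p => ∑ l ∈ Finset.range K, ‖τ l p‖) (cst (ws, 0)) := by
        apply tendsto_finsetSum
        intro l hl
        exact (hτ l (Finset.mem_range.1 hl)).continuousAt.norm
      exact hcont.eventually_lt_const (by linarith)
  obtain ⟨r₂, hr₂, hball⟩ := Metric.eventually_nhds_iff_ball.1 hev
  set T : ℝ := (∑ l ∈ Finset.range K, ‖τ l (cst (ws, 0))‖) + 1 with hT
  set r : ℝ := min (min r₁ r₂) 1 with hr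
  have hr0 : 0 < r := lt_min (lt_min hr₁ hr₂) one_pos
  have h1 : r ≤ r₁ := (min_le_left _ _).trans (min_le_left _ _)
  have h2 : r ≤ r₂ := (min_le_left _ _).trans (min_le_right _ _)
  have hH : Pool.Agent.Y306.TKX.Hyp Ψ (cst (ws, 0)) D r c T K τ :=
    { hr := hr0
      hr1 := min_le_right _ _
      hc := hc
      hd := hd.mono (ball_subset_ball (by linarith))
      h0 := Pool.Agent.Y306.TKX.h0_of hA
      hd0 := Pool.Agent.Y306.TKX.hd0_of hA
      hre := fun v s hs hsv => hre v s hs (lt_of_lt_of_le hsv h1)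
      ht := fun l hl p hp =>
        ((hball p (ball_subset_ball h2 hp)).1 l
          (Finset.mem_range.2 hl)).differentiableWithinAt
      hT := fun p hp => (hball p (ball_subset_ball h2 hp)).2.le }
  refine ⟨r / 4, by positivity, fun ρ ρ' hρ hρ1 hρ' hρ2 => ?_⟩
  exact fun J => Pool.Agent.Y306.TKX.loc_int hH hρ hρ1 hρ' hρ2 J

end scl

open Finset Filter Topology MeasureTheory Pool.Agent.Y472.K Pool.Agent.Y275.TKX
open scoped Real Interval

theorem naj : S_NAJ := by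
  intro h1 h3 ι _ _ Ψ ws D R S hA hws T hT K τ hτ hLXall
  obtain ⟨r₁, C₁, hr₁, hLX⟩ := hLXall
  obtain ⟨r, c, B, hd, hc1⟩ := exists_dat h1 Ψ ws D R S hA K τ hτ
  obtain ⟨r₃, hr₃, hscl⟩ := sclj h1 ι Ψ ws D R S hA K τ hτ
  have hcp := hd.cpos
  have hrp := hd.rpos
  have hBp := hd.Bpos
  obtain ⟨m, hm0, hm⟩ : ∃ m : ℝ, 0 < m ∧ ∀ i, m ≤ ws i := by
    have hs : 0 ≤ ∑ j, 1 / ws j := sum_nonneg fun j _ => by have := hws j; positivity
    refine ⟨1 / (1 + ∑ i, 1 / ws i), by positivity, fun i => ?_⟩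
    have h4 : 1 / ws i ≤ ∑ j, 1 / ws j :=
      single_le_sum (f := fun j => 1 / ws j) (fun j _ => by have := hws j; positivity)
        (mem_univ i)
    have h5 : 0 < 1 / ws i := by have := hws i; positivity
    calc 1 / (1 + ∑ i, 1 / ws i) ≤ 1 / (1 / ws i) := one_div_le_one_div_of_le h5 (by linarith)
      _ = ws i := one_div_one_div _
  refine ⟨min (min (r / 4) (r₁ / 2)) (min r₃ (m / 2)), by positivity, ?_⟩
  intro ρ ρ' hρ hρr hρ' hρ'r
  have e1 : ρ ≤ r / 4 := hρr.trans ((min_le_left _ _).trans (min_le_left _ _))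
  have e2 : ρ ≤ r₁ / 2 := hρr.trans ((min_le_left _ _).trans (min_le_right _ _))
  have e3 : ρ ≤ r₃ := hρr.trans ((min_le_right _ _).trans (min_le_left _ _))
  have e4 : ρ ≤ m / 2 := hρr.trans ((min_le_right _ _).trans (min_le_right _ _))
  have f1 : ρ' ≤ r / 4 := hρ'r.trans ((min_le_left _ _).trans (min_le_left _ _))
  have f2 : ρ' ≤ r₁ / 2 := hρ'r.trans ((min_le_left _ _).trans (min_le_right _ _))
  have f3 : ρ' ≤ r₃ := hρ'r.trans ((min_le_right _ _).trans (min_le_left _ _))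
  have ha := hscl ρ ρ' hρ e3 hρ' f3
  set a : ℕ → ℂ := fun j => Pool.Agent.Y306.TKX.cf Ψ (cst (ws, 0)) D K τ (2 * j) with hadef
  obtain ⟨C₃, hC₃⟩ := ha K
  obtain ⟨C₂, hC₂⟩ := h3 ι ws ρ c hρ (fun i => by have := hm i; linarith) hcp (K + 1)
  obtain ⟨Q, hQ⟩ : ∃ Q : ℝ, Q = |C₁| * Real.exp |C₁| * Real.exp B * √(π / c) *
    (3 * √(2 * π / c)) ^ Fintype.card ι := ⟨_, rfl⟩
  obtain ⟨M, hM⟩ : ∃ M : ℝ, M = Real.exp (2 * B) * (2 * ρ') := ⟨_, rfl⟩
  have hM0 : 0 ≤ M := by rw [hM]; positivity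
  refine ⟨Q + |C₂| * M + C₃, ?_⟩
  show ∀ᶠ N : ℕ in atTop,
      ‖((√(N : ℝ) : ℝ) : ℂ) / ((√(N : ℝ) : ℝ) : ℂ) ^ Fintype.card ι * Complex.exp (-(N * D)) *
        (∑ k ∈ nrs ws ρ N, ∫ x in (-ρ')..ρ', T N k x) - ∑ j ∈ range K, a j / (N : ℂ) ^ j‖ ≤
      (Q + |C₂| * M + C₃) / (N : ℝ) ^ K
  have hsq : ∀ᶠ N : ℕ in atTop, 1 / √(N : ℝ) < r := by
    have h4 : Tendsto (fun N : ℕ => √(N : ℝ)) atTop atTop :=
      Real.tendsto_sqrt_atTop.comp tendsto_natCast_atTop_atTop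
    filter_upwards [h4.eventually_gt_atTop (1 / r), eventually_ge_atTop 1] with N h5 h6
    have h7 : 0 < √(N : ℝ) := Real.sqrt_pos.2 (by exact_mod_cast h6)
    rw [div_lt_iff₀ h7]
    rw [div_lt_iff₀ hrp] at h5
    linarith
  filter_upwards [hT, hLX, hC₃, hC₂, hsq, eventually_ge_atTop 1] with N g1 g2 g3 g4 g5 g6
  have hN0 : (1 : ℝ) ≤ N := by exact_mod_cast g6
  have hNp : (0 : ℝ) < N := by linarith
  obtain ⟨d, hdd⟩ : ∃ d, d = Fintype.card ι := ⟨_, rfl⟩
  rw [← hdd] at hQ g3 g4 ⊢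
  obtain ⟨s, hs⟩ : ∃ s : ℝ, s = √(N : ℝ) := ⟨_, rfl⟩
  have hs0 : 1 ≤ s := by
    rw [hs]
    exact Real.one_le_sqrt.2 hN0
  have hsp : 0 < s := by linarith
  have hss : s ^ 2 = N := by rw [hs]; exact Real.sq_sqrt hNp.le
  rw [← hs] at g3 ⊢
  have hsN : (s : ℂ) ^ 2 = (N : ℂ) := by
    rw [← Complex.ofReal_pow, hss]
    simp
  have hsC : (s : ℂ) ≠ 0 := by exact_mod_cast hsp.ne'
  -- part 1
  obtain ⟨Φ, hΦ⟩ : ∃ Φ : (ι → ℂ) × ℂ → ℂ, Φ = FX Ψ D τ K N := ⟨_, rfl⟩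
  have hΦan : ∀ p ∈ Metric.ball (cst (ws, 0)) (2 * r), AnalyticAt ℂ Φ p := by
    rw [hΦ]
    exact hd.an N
  have hGc : ∀ w : ι → ℝ, (∀ i, |w i - ws i| ≤ ρ) →
      ContinuousOn (fun x : ℝ => Φ (cst (w, x))) (Set.Icc (-ρ') ρ') := by
    intro w hw
    exact (cont_GG hΦan hρ' (by linarith) (ρ := ρ) (by linarith) hρ.le).1.comp
      (f := fun x : ℝ => (w, x)) (by fun_prop) (fun x hx => ⟨hw, hx⟩)
  have hpt : ∀ k ∈ nrs ws ρ N, ‖Complex.exp (-(N * D)) * (∫ x in (-ρ')..ρ', T N k x) -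
      GG Φ ρ' (fun i => (((k i : ℝ) / N : ℝ) : ℂ))‖ ≤
      (|C₁| / N ^ K * Real.exp |C₁| * Real.exp B * √(π / c) / s) *
        Real.exp (-(N * (c * ∑ i, ((k i : ℝ) / N - ws i) ^ 2))) := by
    intro k hk
    have hk1 := mem_nrs hk
    have hc1' := hGc (fun i => (k i : ℝ) / N) hk1
    have h5 : GG Φ ρ' (fun i => (((k i : ℝ) / N : ℝ) : ℂ)) =
        ∫ x in (-ρ')..ρ', Φ (cst (fun i => (k i : ℝ) / N, x)) := rfl
    have hi2 : IntervalIntegrable (fun x : ℝ => Φ (cst (fun i => (k i : ℝ) / N, x))) volume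
        (-ρ') ρ' := by
      refine ContinuousOn.intervalIntegrable ?_
      rw [Set.uIcc_of_le (by linarith)]
      exact hc1'
    rw [h5, ← intervalIntegral.integral_const_mul, ← intervalIntegral.integral_sub
      (((g1 k).intervalIntegrable _ _).const_mul _) hi2]
    have h6 : ∀ x ∈ Set.Ioc (-ρ') ρ', ‖Complex.exp (-(N * D)) * T N k x -
        Φ (cst (fun i => (k i : ℝ) / N, x))‖ ≤
        (|C₁| / N ^ K * Real.exp |C₁| * Real.exp B) *
          Real.exp (-(N * (c * ∑ i, ((k i : ℝ) / N - ws i) ^ 2))) *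
          Real.exp (-(N * c) * x ^ 2) := by
      intro x hx
      have hx' : |x| ≤ ρ' := abs_le.2 ⟨hx.1.le, hx.2⟩
      obtain ⟨e, he, hTe⟩ := g2 k x (fun i => by have := hk1 i; linarith) (by linarith)
      have h7 : Complex.exp (-(N * D)) * T N k x = Φ (cst (fun i => (k i : ℝ) / N, x)) *
          Complex.exp e := by
        rw [hTe, hΦ]
        unfold FX
        rw [← Complex.exp_add, ← Complex.exp_add]
        congr 1
        ring
      have h8 : Complex.exp (-(N * D)) * T N k x - Φ (cst (fun i => (k i : ℝ) / N, x)) =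
          Φ (cst (fun i => (k i : ℝ) / N, x)) * (Complex.exp e - 1) := by
        rw [h7]
        ring
      rw [h8, norm_mul]
      have h9 : ‖Complex.exp e - 1‖ ≤ |C₁| / N ^ K * Real.exp |C₁| := by
        refine exp_sub_one_le (he.trans ?_) ?_
        · have := le_abs_self C₁
          gcongr
        · exact div_le_self (abs_nonneg _) (one_le_pow₀ hN0)
      have h10 := FX_real hd g6 (w := fun i => (k i : ℝ) / N) (x := x)
        (fun i => by have := hk1 i; linarith) (by linarith)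
      rw [← hΦ] at h10
      calc ‖Φ (cst (fun i => (k i : ℝ) / N, x))‖ * ‖Complex.exp e - 1‖
          ≤ (Real.exp B * Real.exp (-(N * (c * ∑ i, ((k i : ℝ) / N - ws i) ^ 2))) *
            Real.exp (-(N * c) * x ^ 2)) * (|C₁| / N ^ K * Real.exp |C₁|) :=
            mul_le_mul h10 h9 (norm_nonneg _) (by positivity)
        _ = _ := by ring
    have hgi : Integrable (fun x : ℝ => Real.exp (-(N * c) * x ^ 2)) :=
      integrable_exp_neg_mul_sq (by positivity)
    refine (intervalIntegral.norm_integral_le_of_norm_le (by linarith)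
      (Eventually.of_forall h6) ((hgi.const_mul _).intervalIntegrable)).trans ?_
    rw [intervalIntegral.integral_const_mul]
    have h11 : ∫ x in (-ρ')..ρ', Real.exp (-(N * c) * x ^ 2) ≤ √(π / c) / s := by
      rw [intervalIntegral.integral_of_le (by linarith)]
      refine (setIntegral_le_integral hgi (Eventually.of_forall fun t => by positivity)).trans ?_
      rw [integral_gaussian]
      have h12 : π / (N * c) = π / c / N := by field_simp
      rw [h12, Real.sqrt_div (by positivity), hs]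
    calc |C₁| / N ^ K * Real.exp |C₁| * Real.exp B *
          Real.exp (-(N * (c * ∑ i, ((k i : ℝ) / N - ws i) ^ 2))) *
          ∫ x in (-ρ')..ρ', Real.exp (-(N * c) * x ^ 2)
        ≤ |C₁| / N ^ K * Real.exp |C₁| * Real.exp B *
          Real.exp (-(N * (c * ∑ i, ((k i : ℝ) / N - ws i) ^ 2))) * (√(π / c) / s) := by
          gcongr
      _ = _ := by ring
  have hpart1 : ‖(s : ℂ) / (s : ℂ) ^ d * Complex.exp (-(N * D)) *
      (∑ k ∈ nrs ws ρ N, ∫ x in (-ρ')..ρ', T N k x) - (s : ℂ) / (s : ℂ) ^ d *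
      ∑ k ∈ nrs ws ρ N, GG Φ ρ' (fun i => (((k i : ℝ) / N : ℝ) : ℂ))‖ ≤ Q / N ^ K := by
    rw [mul_assoc, ← mul_sub, mul_sum, ← sum_sub_distrib, norm_mul, norm_div, norm_pow,
      Complex.norm_real, Real.norm_of_nonneg hsp.le]
    have h5 : ‖∑ k ∈ nrs ws ρ N, (Complex.exp (-(N * D)) * (∫ x in (-ρ')..ρ', T N k x) -
        GG Φ ρ' (fun i => (((k i : ℝ) / N : ℝ) : ℂ)))‖ ≤
        (|C₁| / N ^ K * Real.exp |C₁| * Real.exp B * √(π / c) / s) *
          ((3 * √(2 * π / c)) ^ d * s ^ d) := by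
      refine (norm_sum_le _ _).trans ((sum_le_sum hpt).trans ?_)
      rw [← mul_sum]
      refine mul_le_mul_of_nonneg_left ?_ (by positivity)
      rw [hdd, hs]
      exact gauss_prod hcp hc1 g6
    calc s / s ^ d * ‖∑ k ∈ nrs ws ρ N, (Complex.exp (-(N * D)) *
          (∫ x in (-ρ')..ρ', T N k x) - GG Φ ρ' (fun i => (((k i : ℝ) / N : ℝ) : ℂ)))‖
        ≤ s / s ^ d * ((|C₁| / N ^ K * Real.exp |C₁| * Real.exp B * √(π / c) / s) *
          ((3 * √(2 * π / c)) ^ d * s ^ d)) := by gcongr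
      _ = Q / N ^ K := by
          rw [hQ]
          field_simp
  -- part 2
  have hpart2 : ‖(s : ℂ) / (s : ℂ) ^ d *
      (∑ k ∈ nrs ws ρ N, GG Φ ρ' (fun i => (((k i : ℝ) / N : ℝ) : ℂ))) -
      (s : ℂ) ^ (d + 1) * ∫ u in bx ι ρ ρ', Φ (cst (fun i => ws i + u.1 i, u.2))‖ ≤
      |C₂| * M / N ^ K := by
    rw [← fubini hΦan hρ' (by linarith) (by linarith) hρ.le]
    have h5 := g4 (GG Φ ρ') M hM0
      (cont_GG hΦan hρ' (by linarith) (by linarith) hρ.le).2 (by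
        intro w hw i y hy
        have hy' : |y| < r := hy.trans (by rw [← hs] at g5; rw [hs] at g5; exact g5)
        refine ⟨?_, ?_⟩
        · refine diff_GG hΦan hρ' (by linarith) _ i _ ?_
          rw [mem_ball_iff_norm, pi_norm_lt_iff (by linarith)]
          intro j
          by_cases hj : j = i
          · subst hj
            rw [Pi.sub_apply, Function.update_self]
            have h6 : (w j : ℂ) + y * Complex.I - (ws j : ℂ) =
                ((w j - ws j : ℝ) : ℂ) + (y : ℂ) * Complex.I := by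
              push_cast
              ring
            rw [h6]
            refine (norm_add_le _ _).trans_lt ?_
            rw [norm_mul, Complex.norm_I, mul_one, Complex.norm_real, Complex.norm_real,
              Real.norm_eq_abs, Real.norm_eq_abs]
            have := hw j
            linarith
          · rw [Pi.sub_apply, Function.update_of_ne hj, ← Complex.ofReal_sub, Complex.norm_real,
              Real.norm_eq_abs]
            have := hw j
            linarith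
        · rw [hΦ, hM]
          exact GG_bd hd g6 hρ' (by linarith) (fun i => by have := hw i; linarith) hy g5 i)
    have h6 : (s : ℂ) ^ (d + 1) = (s : ℂ) / (s : ℂ) ^ d * (N : ℂ) ^ d := by
      rw [← hsN, ← pow_mul, div_mul_eq_mul_div, eq_div_iff (pow_ne_zero _ hsC)]
      ring
    rw [h6, mul_assoc, ← mul_sub, norm_mul, norm_div, norm_pow, Complex.norm_real,
      Real.norm_of_nonneg hsp.le]
    have h7 : s / s ^ d ≤ N := by
      calc s / s ^ d ≤ s := div_le_self hsp.le (one_le_pow₀ hs0)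
        _ ≤ s * s := by nlinarith
        _ = N := by rw [← hss, sq]
    calc s / s ^ d * ‖(∑ k ∈ nrs ws ρ N, GG Φ ρ' fun i => (((k i : ℝ) / N : ℝ) : ℂ)) -
          (N : ℂ) ^ d * ∫ w in {w : ι → ℝ | ∀ i, |w i - ws i| ≤ ρ}, GG Φ ρ' fun i => (w i : ℂ)‖
        ≤ N * (C₂ * M / (N : ℝ) ^ (K + 1)) :=
          mul_le_mul h7 h5 (norm_nonneg _) hNp.le
      _ = C₂ * M / N ^ K := by
          rw [pow_succ]
          field_simp
      _ ≤ |C₂| * M / N ^ K := by
          have := le_abs_self C₂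
          gcongr
  -- the sum
  have hpart3 : ‖(s : ℂ) ^ (d + 1) * (∫ u in bx ι ρ ρ', Φ (cst (fun i => ws i + u.1 i, u.2))) -
      ∑ j ∈ range K, a j / (N : ℂ) ^ j‖ ≤ C₃ / N ^ K := by
    rw [hΦ]
    exact g3
  have h5 : (s : ℂ) / (s : ℂ) ^ d * Complex.exp (-(N * D)) *
      (∑ k ∈ nrs ws ρ N, ∫ x in (-ρ')..ρ', T N k x) - ∑ j ∈ range K, a j / (N : ℂ) ^ j =
      ((s : ℂ) / (s : ℂ) ^ d * Complex.exp (-(N * D)) *
      (∑ k ∈ nrs ws ρ N, ∫ x in (-ρ')..ρ', T N k x) - (s : ℂ) / (s : ℂ) ^ d *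
      ∑ k ∈ nrs ws ρ N, GG Φ ρ' (fun i => (((k i : ℝ) / N : ℝ) : ℂ))) +
      ((s : ℂ) / (s : ℂ) ^ d *
      (∑ k ∈ nrs ws ρ N, GG Φ ρ' (fun i => (((k i : ℝ) / N : ℝ) : ℂ))) -
      (s : ℂ) ^ (d + 1) * ∫ u in bx ι ρ ρ', Φ (cst (fun i => ws i + u.1 i, u.2))) +
      ((s : ℂ) ^ (d + 1) * (∫ u in bx ι ρ ρ', Φ (cst (fun i => ws i + u.1 i, u.2))) -
      ∑ j ∈ range K, a j / (N : ℂ) ^ j) := by ring
  rw [h5]
  refine (norm_add_le _ _).trans ((add_le_add ((norm_add_le _ _).trans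
    (add_le_add hpart1 hpart2)) hpart3).trans (le_of_eq ?_))
  rw [add_div, add_div]

end Pool.Agent.Y472.L
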