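import Pool.Agent.Y472.L.Asm2
import Pool.Agent.Y472.L.FinA
import Pool.Agent.Y472.L.Naj
import Pool.Agent.Y936.TKX.Gbd
import Pool.Agent.Y849.TKX.Mlt
import Pool.Agent.Y240.TKX.Ptx
import Pool.Agent.Y904.TA.Jta
import Pool.Agent.Y904.TA.Jtb
import Pool.Agent.Y904.TA.Qrj
import Pool.Agent.Y904.TA.Sdj
import Pool.Agent.Y769.TA.Jtd
import Pool.Agent.Y372.TA.Wj
import Pool.Agent.Y372.TA.Qdj
import Pool.Agent.Y814.TA.Gm
import Pool.Agent.Y814.TA.Gsq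
import Pool.Agent.Y814.TA.Psj
import Pool.Agent.Y814.TA.Qmx
import Pool.Agent.Y970.TA.Bfj
import Pool.Agent.Y970.TA.Lgj
import Pool.Agent.Y970.TA.Srj

/-!
# The Turk's head links: arithmetic of the expansion (project TA)
-/

set_option autoImplicit false

namespace Pool.Agent.Y472.L

open scoped Real

theorem xpa : S_XPA :=
  xpa_of Pool.Agent.Y936.TKX.gbd Pool.Agent.Y849.TKX.mlt Pool.Agent.Y240.TKX.ptx
    Pool.Agent.Y904.TA.jta Pool.Agent.Y904.TA.jtb Pool.Agent.Y769.TA.jtd Pool.Agent.Y372.TA.wj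
    Pool.Agent.Y814.TA.qmx Pool.Agent.Y814.TA.gm Pool.Agent.Y814.TA.gsq naj
    Pool.Agent.Y904.TA.sdj Pool.Agent.Y372.TA.qdj Pool.Agent.Y970.TA.srj
    Pool.Agent.Y904.TA.qrj Pool.Agent.Y970.TA.bfj Pool.Agent.Y814.TA.psj Pool.Agent.Y970.TA.lgj

/-- the coefficients of the expansion of the Kashaev invariants of the Turk's head links -/
theorem arith2 (n : ℕ) (hn : 4 ≤ n) : ∃ a : ℕ → ℝ,
    Pool.Agent.Y472.K.Out.Ex (Pool.Agent.Y472.K.Out.JJ n)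
      (2 * Real.pi * Pool.Agent.Y472.K.Dn n) a ∧ ∀ E : Subfield ℂ, zs n ∈ E →
      ∃ δ ∈ E, δ ≠ 0 ∧ ∃ s : ℂ, s ^ 2 = δ ∧ (a 0 : ℂ) * s = Complex.exp (2 * π * Complex.I / 8) ∧
      ∀ j, ∃ e ∈ E, (a j : ℂ) / (2 * π * Complex.I) ^ j = e * (a 0 : ℂ) := arith2_of xpa n hn

end Pool.Agent.Y472.L
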